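import Mathlib

/-!
MP_e457e7_co, k = 2: the pair form of T(2;M).

`Q` is the set of pairs, `h q` the common head of the two arcs of the pair `q`, `t q b` the tail of
the arc `b` of the pair (`none` is the root).  A partial state `s : Q → Option Bool` decides some
pairs: `s q = some b` means that the arc `b` goes to `G` and its mate to `F`.

* `f D s X` number of pairs whose `F`-unit enters `X` (undecided pairs: at least one arc enters),
* `g D s X` number of pairs whose `G`-unit enters `X` (undecided pairs: both arcs enter),
* `f + g = rho`, `f` is submodular, an undecided pair can always be decided (`decide_one`),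
* Theorem S-M: `theorem_SM`.
-/

set_option autoImplicit false

namespace Pool.Agent.E457m

open Finset

/-- The tail `o` is outside `X` (`none` is the root). -/
def Out {W : Type} (X : Finset W) (o : Option W) : Prop := ∀ u ∈ X, o ≠ some u

instance {W : Type} [DecidableEq W] (X : Finset W) (o : Option W) : Decidable (Out X o) := by
  unfold Out; infer_instance

@[simp] theorem out_none {W : Type} (X : Finset W) : Out X none := by simp [Out]

@[simp] theorem out_some {W : Type} (X : Finset W) (u : W) : Out X (some u) ↔ u ∉ X := by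
  constructor
  · intro h hu; exact h u hu rfl
  · intro h v hv he
    rw [Option.some.injEq] at he
    exact h (he ▸ hv)

theorem Out.mono {W : Type} {X Y : Finset W} {o : Option W} (h : Out Y o) (hXY : X ⊆ Y) :
    Out X o := fun u hu => h u (hXY hu)

theorem out_union {W : Type} [DecidableEq W] (X Y : Finset W) (o : Option W) :
    Out (X ∪ Y) o ↔ Out X o ∧ Out Y o := by
  cases o with
  | none => simp
  | some u => simp [not_or]

theorem out_inter {W : Type} [DecidableEq W] (X Y : Finset W) (o : Option W) :
    Out (X ∩ Y) o ↔ Out X o ∨ Out Y o := by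
  cases o with
  | none => simp
  | some u => simp only [out_some, mem_inter]; tauto

/-- A digraph given by its pairs of in-arcs. -/
structure PD (W Q : Type) where
  /-- head of the pair -/
  h : Q → W
  /-- tails of the two arcs of the pair -/
  t : Q → Bool → Option W

variable {W Q : Type} [DecidableEq W]

namespace PD

/-- the arc `b` of the pair `q` enters `X` -/
def ent (D : PD W Q) (q : Q) (b : Bool) (X : Finset W) : Prop := D.h q ∈ X ∧ Out X (D.t q b)

instance (D : PD W Q) (q : Q) (b : Bool) (X : Finset W) : Decidable (D.ent q b X) := by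
  unfold ent; infer_instance

/-- contribution of the pair `q` in the state `o` to the `F`-side at `X` -/
def fu (D : PD W Q) (o : Option Bool) (q : Q) (X : Finset W) : ℕ :=
  match o with
  | none => if D.ent q false X ∨ D.ent q true X then 1 else 0
  | some b => if D.ent q (!b) X then 1 else 0

/-- contribution of the pair `q` in the state `o` to the `G`-side at `X` -/
def gu (D : PD W Q) (o : Option Bool) (q : Q) (X : Finset W) : ℕ :=
  match o with
  | none => if D.ent q false X ∧ D.ent q true X then 1 else 0
  | some b => if D.ent q b X then 1 else 0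

theorem fu_none (D : PD W Q) (q : Q) (X : Finset W) :
    D.fu none q X = if D.ent q false X ∨ D.ent q true X then 1 else 0 := rfl

theorem fu_some (D : PD W Q) (b : Bool) (q : Q) (X : Finset W) :
    D.fu (some b) q X = if D.ent q (!b) X then 1 else 0 := rfl

theorem gu_none (D : PD W Q) (q : Q) (X : Finset W) :
    D.gu none q X = if D.ent q false X ∧ D.ent q true X then 1 else 0 := rfl

theorem gu_some (D : PD W Q) (b : Bool) (q : Q) (X : Finset W) :
    D.gu (some b) q X = if D.ent q b X then 1 else 0 := rfl

variable [Fintype Q]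

/-- number of arcs entering `X` -/
def rho (D : PD W Q) (X : Finset W) : ℕ :=
  ∑ q, ((if D.ent q false X then 1 else 0) + (if D.ent q true X then 1 else 0))

/-- number of `F`-units entering `X` -/
def f (D : PD W Q) (s : Q → Option Bool) (X : Finset W) : ℕ := ∑ q, D.fu (s q) q X

/-- number of `G`-units entering `X` -/
def g (D : PD W Q) (s : Q → Option Bool) (X : Finset W) : ℕ := ∑ q, D.gu (s q) q X

theorem f_add_g (D : PD W Q) (s : Q → Option Bool) (X : Finset W) :
    D.f s X + D.g s X = D.rho X := by
  unfold f g rho
  rw [← sum_add_distrib]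
  refine sum_congr rfl fun q _ => ?_
  rcases s q with _ | b
  · rw [fu_none, gu_none]
    by_cases h1 : D.ent q false X <;> by_cases h2 : D.ent q true X <;> simp [h1, h2]
  · rw [fu_some, gu_some]
    cases b <;> by_cases h1 : D.ent q false X <;> by_cases h2 : D.ent q true X <;> simp [h1, h2]

/-- the contribution of one pair to the submodular inequality -/
theorem fu_submod (D : PD W Q) (o : Option Bool) (q : Q) (X Y : Finset W) :
    D.fu o q (X ∩ Y) + D.fu o q (X ∪ Y) ≤ D.fu o q X + D.fu o q Y := by
  rcases o with _ | b
  · simp only [fu_none, ent, mem_inter, mem_union, out_inter, out_union]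
    by_cases h1 : D.h q ∈ X <;> by_cases h2 : D.h q ∈ Y <;>
    by_cases h3 : Out X (D.t q false) <;> by_cases h4 : Out X (D.t q true) <;>
    by_cases h5 : Out Y (D.t q false) <;> by_cases h6 : Out Y (D.t q true) <;>
    simp [h1, h2, h3, h4, h5, h6]
  · simp only [fu_some, ent, mem_inter, mem_union, out_inter, out_union]
    by_cases h1 : D.h q ∈ X <;> by_cases h2 : D.h q ∈ Y <;>
    by_cases h3 : Out X (D.t q (!b)) <;> by_cases h5 : Out Y (D.t q (!b)) <;>
    simp [h1, h2, h3, h5]

theorem f_submod (D : PD W Q) (s : Q → Option Bool) (X Y : Finset W) :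
    D.f s (X ∩ Y) + D.f s (X ∪ Y) ≤ D.f s X + D.f s Y := by
  unfold f
  rw [← sum_add_distrib, ← sum_add_distrib]
  exact sum_le_sum fun q _ => D.fu_submod (s q) q X Y

/-- strict submodularity: an undecided pair is entered through different arcs -/
theorem f_submod_strict (D : PD W Q) (s : Q → Option Bool) (X Y : Finset W) (q : Q) (b : Bool)
    (hs : s q = none) (hX : D.h q ∈ X) (hY : D.h q ∈ Y)
    (h1 : Out X (D.t q b)) (h2 : ¬ Out Y (D.t q b))
    (h3 : ¬ Out X (D.t q (!b))) (h4 : Out Y (D.t q (!b))) :
    D.f s (X ∩ Y) + D.f s (X ∪ Y) + 1 ≤ D.f s X + D.f s Y := by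
  classical
  unfold f
  rw [← sum_add_distrib, ← sum_add_distrib]
  rw [← Finset.add_sum_erase _ _ (mem_univ q), ← Finset.add_sum_erase (s := univ)
    (f := fun q => D.fu (s q) q X + D.fu (s q) q Y) (mem_univ q)]
  have hrest : ∑ x ∈ univ.erase q, (D.fu (s x) x (X ∩ Y) + D.fu (s x) x (X ∪ Y)) ≤
      ∑ x ∈ univ.erase q, (D.fu (s x) x X + D.fu (s x) x Y) :=
    sum_le_sum fun x _ => D.fu_submod (s x) x X Y
  have hq : D.fu (s q) q (X ∩ Y) + D.fu (s q) q (X ∪ Y) + 1 ≤
      D.fu (s q) q X + D.fu (s q) q Y := by
    rw [hs]
    simp only [fu_none, ent, mem_inter, mem_union, out_inter, out_union, hX, hY]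
    cases b <;> simp_all
  omega

/-- deciding a pair changes `f` only through this pair -/
theorem f_update (D : PD W Q) [DecidableEq Q] (s : Q → Option Bool) (q : Q) (b : Bool)
    (X : Finset W) (hs : s q = none)
    (hX : D.f (Function.update s q (some b)) X < D.f s X) :
    D.ent q b X ∧ ¬ D.ent q (!b) X ∧ D.f (Function.update s q (some b)) X + 1 = D.f s X := by
  unfold f at *
  rw [← Finset.add_sum_erase _ _ (mem_univ q), ← Finset.add_sum_erase (s := univ)
    (f := fun q => D.fu (s q) q X) (mem_univ q)] at hX ⊢
  have hrest : ∑ x ∈ univ.erase q, D.fu (Function.update s q (some b) x) x X =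
      ∑ x ∈ univ.erase q, D.fu (s x) x X := by
    refine sum_congr rfl fun x hx => ?_
    rw [Function.update_of_ne (ne_of_mem_erase hx)]
  rw [hrest] at hX ⊢
  rw [Function.update_self, hs, fu_some, fu_none] at hX ⊢
  cases b <;> by_cases h1 : D.ent q false X <;> by_cases h2 : D.ent q true X <;>
    simp only [h1, h2, Bool.not_false, Bool.not_true, if_true, if_false, or_true, true_or,
      or_self, not_true, not_false_iff, true_and, and_true, false_and, and_false] at hX ⊢ <;>
    omega

theorem g_le_update (D : PD W Q) [DecidableEq Q] (s : Q → Option Bool) (q : Q) (b : Bool)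
    (X : Finset W) (hs : s q = none) :
    D.g s X ≤ D.g (Function.update s q (some b)) X := by
  unfold g
  refine sum_le_sum fun x _ => ?_
  by_cases hx : x = q
  · subst hx
    rw [Function.update_self, hs, gu_none, gu_some]
    cases b <;> by_cases h1 : D.ent x false X <;> by_cases h2 : D.ent x true X <;> simp [h1, h2]
  · rw [Function.update_of_ne hx]

/-- every legal partial state can be extended at an undecided pair -/
theorem decide_one (D : PD W Q) [DecidableEq Q] (s : Q → Option Bool) (q : Q) (k : ℕ)
    (hs : s q = none) (hf : ∀ X : Finset W, X.Nonempty → k ≤ D.f s X) :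
    ∃ b, ∀ X : Finset W, X.Nonempty → k ≤ D.f (Function.update s q (some b)) X := by
  by_contra hcon
  push Not at hcon
  obtain ⟨X, hX, hXk⟩ := hcon false
  obtain ⟨Y, hY, hYk⟩ := hcon true
  have hX' := hf X hX
  have hY' := hf Y hY
  obtain ⟨hx1, hx2, hx3⟩ := D.f_update s q false X hs (by omega)
  obtain ⟨hy1, hy2, hy3⟩ := D.f_update s q true Y hs (by omega)
  simp only [Bool.not_false, Bool.not_true] at hx2 hy2
  have hqX : D.h q ∈ X := hx1.1
  have hqY : D.h q ∈ Y := hy1.1
  have h := D.f_submod_strict s X Y q false hs hqX hqY hx1.2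
    (fun h => hy2 ⟨hqY, h⟩) (fun h => hx2 ⟨hqX, h⟩) hy1.2
  have h1 := hf (X ∩ Y) ⟨D.h q, mem_inter.2 ⟨hqX, hqY⟩⟩
  have h2 := hf (X ∪ Y) ⟨D.h q, mem_union_left _ hqX⟩
  omega

/-- number of arcs `(q, σ q)` entering `X` -/
def r (D : PD W Q) (σ : Q → Bool) (X : Finset W) : ℕ := ∑ q, if D.ent q (σ q) X then 1 else 0

theorem g_some (D : PD W Q) (σ : Q → Bool) (X : Finset W) :
    D.g (fun q => some (σ q)) X = D.r σ X := rfl

theorem f_some (D : PD W Q) (σ : Q → Bool) (X : Finset W) :
    D.f (fun q => some (σ q)) X = D.r (fun q => !σ q) X := rfl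

theorem r_add_r (D : PD W Q) (σ : Q → Bool) (X : Finset W) :
    D.r (fun q => !σ q) X + D.r σ X = D.rho X := by
  rw [← f_some, ← g_some, f_add_g]

theorem r_submod (D : PD W Q) (σ : Q → Bool) (X Y : Finset W) :
    D.r σ (X ∩ Y) + D.r σ (X ∪ Y) ≤ D.r σ X + D.r σ Y := by
  have := D.f_submod (fun q => some (!σ q)) X Y
  simpa only [f_some, Bool.not_not] using this

/-- A solution: each side enters every nonempty set at least `k` times. -/
def Sol (D : PD W Q) (k : ℕ) (σ : Q → Bool) : Prop :=
  ∀ X : Finset W, X.Nonempty → k ≤ D.r σ X ∧ k ≤ D.r (fun q => !σ q) X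

/-- THEOREM S-M. -/
theorem theorem_SM (D : PD W Q) (k : ℕ) (s : Q → Option Bool)
    (hf : ∀ X : Finset W, X.Nonempty → k ≤ D.f s X)
    (hg : ∀ X : Finset W, X.Nonempty → k ≤ D.g s X) : ∃ σ, D.Sol k σ := by
  classical
  -- induction on the number of undecided pairs
  induction hn : (univ.filter (fun q => s q = none)).card generalizing s with
  | zero =>
    have hall : ∀ q, ∃ b, s q = some b := by
      intro q
      have := Finset.card_eq_zero.1 hn
      have hq : q ∉ univ.filter (fun q => s q = none) := by rw [this]; simp
      simp only [mem_filter, mem_univ, true_and] at hq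
      exact Option.ne_none_iff_exists'.1 hq
    choose σ hσ using hall
    have hs : s = fun q => some (σ q) := funext hσ
    subst hs
    refine ⟨σ, fun X hX => ⟨?_, ?_⟩⟩
    · rw [← g_some]; exact hg X hX
    · rw [← f_some]; exact hf X hX
  | succ n ih =>
    have hne : (univ.filter (fun q => s q = none)).Nonempty := by
      rw [← Finset.card_pos]; omega
    obtain ⟨q, hq⟩ := hne
    have hqn : s q = none := (mem_filter.1 hq).2
    obtain ⟨b, hb⟩ := D.decide_one s q k hqn hf
    refine ih (Function.update s q (some b)) hb
      (fun X hX => (hg X hX).trans (D.g_le_update s q b X hqn)) ?_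
    have : univ.filter (fun x => Function.update s q (some b) x = none) =
        (univ.filter (fun x => s x = none)).erase q := by
      ext x
      simp only [mem_filter, mem_univ, true_and, mem_erase]
      by_cases hx : x = q
      · subst hx; simp
      · simp [Function.update_of_ne hx, hx]
    rw [this, card_erase_of_mem hq, hn]
    rfl

end PD

/-- The statement T(2;M) in pair form. -/
def T2 : Prop :=
  ∀ (W Q : Type) [Fintype W] [DecidableEq W] [Fintype Q] [DecidableEq Q] (D : PD W Q),
    (∀ w, (univ.filter (fun q => D.h q = w)).card = 2) →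
    (∀ X : Finset W, X.Nonempty → 4 ≤ D.rho X) → ∃ σ, D.Sol 2 σ

end Pool.Agent.E457m
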