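import Pool.Agent.Lib_MP_e457e7_m.Base
import Pool.Agent.Lib_MP_e457e7_g3.Final
import Pool.Agent.Lib_MP_e457e7_g3.Loc

/-!
From `T2` (pair form of T(2;M)) to `TK 2` and to the frozen statement `S12075`.
-/

set_option autoImplicit false

namespace Pool.Agent.E457m

open Finset

section Bridge

variable {W E : Type} [Fintype W] [DecidableEq W] [Fintype E] [DecidableEq E]

/-- a transversal of a fixed point free involution -/
theorem exists_transversal (P : E → E) (hP : ∀ e, P (P e) = e) (hP' : ∀ e, P e ≠ e) :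
    ∃ F0 : Finset E, ∀ e, e ∈ F0 ↔ P e ∉ F0 := by
  classical
  let φ := Fintype.equivFin E
  refine ⟨univ.filter (fun e => φ e < φ (P e)), fun e => ?_⟩
  simp only [mem_filter, mem_univ, true_and, hP, not_lt]
  constructor
  · intro h; exact h.le
  · intro h
    refine lt_of_le_of_ne h fun h' => hP' e ?_
    exact (φ.injective h').symm

/-- the arc `b` of the pair `q` -/
def arc (P : E → E) (F0 : Finset E) (q : {e // e ∈ F0}) (b : Bool) : E :=
  if b then q.1 else P q.1

theorem arc_inj {P : E → E} {F0 : Finset E} (hP : ∀ e, P (P e) = e)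
    (hF0 : ∀ e, e ∈ F0 ↔ P e ∉ F0) {q q' : {e // e ∈ F0}} {b b' : Bool}
    (h : arc P F0 q b = arc P F0 q' b') : q = q' ∧ b = b' := by
  unfold arc at h
  have h1 := (hF0 q.1).1 q.2
  have h2 := (hF0 q'.1).1 q'.2
  cases b <;> cases b' <;> simp only [if_true, if_false, Bool.false_eq_true] at h
  · refine ⟨Subtype.ext ?_, rfl⟩
    rw [← hP q.1, h, hP]
  · exact absurd q'.2 (h ▸ h1)
  · exact absurd q.2 (h ▸ h2)
  · exact ⟨Subtype.ext h, rfl⟩

theorem arc_surj {P : E → E} {F0 : Finset E} (hP : ∀ e, P (P e) = e)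
    (hF0 : ∀ e, e ∈ F0 ↔ P e ∉ F0) (e : E) : ∃ q b, arc P F0 q b = e := by
  by_cases h : e ∈ F0
  · exact ⟨⟨e, h⟩, true, rfl⟩
  · have : P e ∈ F0 := by
      rw [hF0, hP]; exact h
    refine ⟨⟨P e, this⟩, false, ?_⟩
    simp [arc, hP]

/-- sums over arcs as sums over pairs -/
theorem card_filter_pairs {P : E → E} {F0 : Finset E} (hP : ∀ e, P (P e) = e)
    (hF0 : ∀ e, e ∈ F0 ↔ P e ∉ F0) (p : E → Prop) [DecidablePred p] :
    (univ.filter p).card = ∑ q : {e // e ∈ F0},
      ((if p (arc P F0 q false) then 1 else 0) + (if p (arc P F0 q true) then 1 else 0)) := by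
  classical
  have e1 : (univ.filter p).card = ∑ e, if p e then 1 else 0 := by
    rw [card_filter]
  have e2 : ∑ e, (if p e then 1 else 0) =
      ∑ x : {e // e ∈ F0} × Bool, if p (arc P F0 x.1 x.2) then 1 else 0 := by
    symm
    refine Fintype.sum_bijective (fun x : {e // e ∈ F0} × Bool => arc P F0 x.1 x.2) ⟨?_, ?_⟩ _ _
      (fun _ => rfl)
    · rintro ⟨q, b⟩ ⟨q', b'⟩ h
      obtain ⟨h1, h2⟩ := arc_inj hP hF0 h
      exact Prod.ext h1 h2
    · intro e
      obtain ⟨q, b, h⟩ := arc_surj hP hF0 e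
      exact ⟨(q, b), h⟩
  rw [e1, e2, Fintype.sum_prod_type]
  refine sum_congr rfl fun q _ => ?_
  rw [Fintype.sum_bool, add_comm]

/-- cardinality of the selected arcs with a property -/
theorem card_filter_sel {P : E → E} {F0 : Finset E} (hP : ∀ e, P (P e) = e)
    (hF0 : ∀ e, e ∈ F0 ↔ P e ∉ F0) (σ : {e // e ∈ F0} → Bool) (p : E → Prop) [DecidablePred p] :
    ((univ.image (fun q => arc P F0 q (σ q))).filter p).card =
      ∑ q : {e // e ∈ F0}, if p (arc P F0 q (σ q)) then 1 else 0 := by
  classical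
  rw [filter_image, card_image_of_injective _
    (fun q q' h => (arc_inj hP hF0 h).1), card_filter]

theorem bool_aux : ∀ c b : Bool, c ≠ b → (!c) = b := by decide

theorem sel_compl {P : E → E} {F0 : Finset E} (hP : ∀ e, P (P e) = e)
    (hF0 : ∀ e, e ∈ F0 ↔ P e ∉ F0) (σ : {e // e ∈ F0} → Bool) :
    (univ.image (fun q => arc P F0 q (σ q)))ᶜ = univ.image (fun q => arc P F0 q (!σ q)) := by
  classical
  ext e
  simp only [mem_compl, mem_image, mem_univ, true_and, not_exists]
  obtain ⟨q, b, rfl⟩ := arc_surj hP hF0 e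
  constructor
  · intro h
    refine ⟨q, ?_⟩
    have := h q
    have hb : σ q ≠ b := fun hb => this (by rw [hb])
    rw [show (!σ q) = b from bool_aux _ _ hb]
  · rintro ⟨q', hq'⟩ q'' hq''
    obtain ⟨h1, h2⟩ := arc_inj hP hF0 hq'
    obtain ⟨h3, h4⟩ := arc_inj hP hF0 hq''
    subst h1; subst h3
    exact (Bool.not_ne_self _ (h2.trans h4.symm)).elim

theorem mate_arc {P : E → E} {F0 : Finset E} (hP : ∀ e, P (P e) = e)
    (q : {e // e ∈ F0}) (b : Bool) : P (arc P F0 q b) = arc P F0 q (!b) := by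
  cases b <;> simp [arc, hP]

end Bridge

theorem TK_of_T2 (hT : T2) : LibE457g.TK 2 := by
  intro W E _ _ _ _ h t P hdeg hcut hP hP' hPh
  classical
  obtain ⟨F0, hF0⟩ := exists_transversal P hP hP'
  have harc_h : ∀ (q : {e // e ∈ F0}) (b : Bool), h (arc P F0 q b) = h q.1 := by
    intro q b
    cases b <;> simp [arc, hPh]
  let D : PD W {e // e ∈ F0} := ⟨fun q => h q.1, fun q b => t (arc P F0 q b)⟩
  have hent : ∀ (q : {e // e ∈ F0}) (b : Bool) (X : Finset W),
      D.ent q b X ↔ (h (arc P F0 q b) ∈ X ∧ ∀ u ∈ X, t (arc P F0 q b) ≠ some u) := by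
    intro q b X
    rw [harc_h]; rfl
  have hdeg' : ∀ w, (univ.filter (fun q => D.h q = w)).card = 2 := by
    intro w
    have h1 := hdeg w
    rw [card_filter_pairs hP hF0] at h1
    rw [card_filter]
    have h2 : ∀ q : {e // e ∈ F0}, ((if h (arc P F0 q false) = w then 1 else 0) +
        (if h (arc P F0 q true) = w then 1 else 0)) = 2 * (if D.h q = w then 1 else 0) := by
      intro q
      rw [harc_h, harc_h]
      show _ = 2 * (if h q.1 = w then 1 else 0)
      split_ifs <;> rfl
    simp only [h2] at h1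
    rw [← mul_sum] at h1
    omega
  have hcut' : ∀ X : Finset W, X.Nonempty → 4 ≤ D.rho X := by
    intro X hX
    have h1 := hcut X hX
    rw [card_filter_pairs hP hF0] at h1
    unfold PD.rho
    simpa only [hent] using h1
  obtain ⟨σ, hσ⟩ := hT W {e // e ∈ F0} D hdeg' hcut'
  · refine ⟨univ.image (fun q => arc P F0 q (σ q)), ?_, ?_, ?_⟩
    · intro e
      rw [← mem_compl, sel_compl hP hF0]
      obtain ⟨q, b, rfl⟩ := arc_surj hP hF0 e
      rw [mate_arc hP]
      simp only [mem_image, mem_univ, true_and]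
      constructor
      · rintro ⟨q', hq'⟩
        obtain ⟨h1, h2⟩ := arc_inj hP hF0 hq'
        subst h1
        exact ⟨q', by rw [h2]⟩
      · rintro ⟨q', hq'⟩
        obtain ⟨h1, h2⟩ := arc_inj hP hF0 hq'
        subst h1
        refine ⟨q', ?_⟩
        rw [show σ q' = b by
          have h3 : (!σ q') = !b := h2
          exact Bool.not_inj h3]
    · intro X hX
      rw [card_filter_sel hP hF0]
      have := (hσ X hX).1
      unfold PD.r at this
      simpa only [hent] using this
    · intro X hX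
      rw [sel_compl hP hF0, card_filter_sel hP hF0]
      have := (hσ X hX).2
      unfold PD.r at this
      simpa only [hent] using this

/-- the frozen statement follows from `T2` -/
theorem S12075_of_T2 (hT2 : T2) :
    ∀ (V A : Type) [Fintype V] [Fintype A] [DecidableEq V] [DecidableEq A]
      (tail head : A → V) (r0 : V) (c : A → ℕ) (k l : ℕ)
      (IsArb : Finset A → Prop),
      (∀ T : Finset A, IsArb T ↔
          ((∀ a ∈ T, head a ≠ r0) ∧
           (∀ v : V, v ≠ r0 → ∃! a : A, a ∈ T ∧ head a = v) ∧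
           (∀ v : V, Relation.ReflTransGen
              (fun x y : V => ∃ a ∈ T, tail a = x ∧ head a = y) r0 v))) →
      (∀ a : A, c a ≤ l) →
      (∃ T : Fin (k * l) → Finset A,
          (∀ i, IsArb (T i)) ∧
          ∀ a : A, (Finset.univ.filter (fun i => a ∈ T i)).card ≤ c a) →
      ∃ B : Fin l → Fin k → Finset A,
        (∀ i j, IsArb (B i j)) ∧
        (∀ i : Fin l, ∀ j j' : Fin k, j ≠ j' → Disjoint (B i j) (B i j')) ∧
        ∀ a : A, (Finset.univ.filter
            (fun p : Fin l × Fin k => a ∈ B p.1 p.2)).card ≤ c a := by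
  intro V A _ _ _ _ tail head r0 c k l IsArb hIsArb hc hT
  rcases Nat.lt_or_ge k 3 with hk | hk
  · interval_cases k
    · refine ⟨fun _ j => j.elim0, fun _ j => j.elim0, fun _ j => j.elim0, fun a => ?_⟩
      have : (Finset.univ.filter (fun p : Fin l × Fin 0 =>
        a ∈ (Fin.elim0 p.2 : Finset A))) = ∅ := by
        ext ⟨_, j⟩; exact j.elim0
      rw [this]; simp
    · obtain ⟨T, hT, hTc⟩ := hT
      let φ : Fin l ≃ Fin (1 * l) := finCongr (by simp)
      refine ⟨fun i _ => T (φ i), fun i _ => hT _, fun i j j' h => absurd (Subsingleton.elim j j') h,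
        fun a => ?_⟩
      refine le_trans (le_of_eq ?_) (hTc a)
      refine Finset.card_bij (fun p _ => φ p.1) ?_ ?_ ?_
      · intro p hp
        simpa using hp
      · rintro ⟨i, j⟩ _ ⟨i', j'⟩ _ h
        have : i = i' := φ.injective h
        rw [this, Subsingleton.elim j j']
      · intro i hi
        refine ⟨(φ.symm i, 0), ?_, ?_⟩
        · simpa using hi
        · simp
    · exact LibE457g.q1_of_TK (TK_of_T2 hT2) V A tail head r0 c l IsArb hIsArb hc hT
  · exact G3.q1_of_local (Pool.Agent.LibE457g.localLemma hk) V A tail head r0 c l IsArb hIsArb hc hT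

end Pool.Agent.E457m
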