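import Pool.Agent.Lib_MP_e457e7_m.Gad

/-!
Theorem 5S: in a minimal counterexample of T(2;M) a set `J` with `3 ≤ |J| < n` is not entered by
exactly five arcs among which there are two complete pairs.
-/

set_option autoImplicit false
set_option linter.unusedSectionVars false

namespace Pool.Agent.E457m

open Finset

variable {W E : Type} [Fintype W] [DecidableEq W] [Fintype E] [DecidableEq E]
variable {h : E → W} {t : E → Option W} {P : E → E}

/-! ### gluing over a set with five entering arcs -/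

theorem glue5 (hD : Inst h t P) {J : Finset W} (hJ : J.Nonempty)
    {F1 F2 : Finset E} (h1 : InSol h t P J F1)
    (tr2 : ∀ e, h e ∉ J → (e ∈ F2 ↔ P e ∉ F2))
    (l2 : ∀ X : Finset W, X.Nonempty → UC J X → 2 ≤ ar h t F2 X)
    (r2 : ∀ X : Finset W, X.Nonempty → UC J X → 2 ≤ ar h t F2ᶜ X)
    (hag : ∀ e, en h t e J → (e ∈ F1 ↔ e ∈ F2))
    (hJ3 : ar h t F2 J ≤ 3) (hJ2 : ar h t F2ᶜ J ≤ 2)
    (hbad : ∀ U : Finset W, J ⊆ U → ar h t F2 U = 2 → ∀ X : Finset W, X.Nonempty → X ⊆ J →
      ar h t F1 X = 2 → ∃ e ∈ F2, (h e ∈ J \ X ∧ ∃ u ∈ U \ J, t e = some u) ∨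
        (h e ∈ U \ J ∧ ∃ u ∈ J \ X, t e = some u)) :
    ∃ F, Sl h t P F := by
  classical
  let F : Finset E := univ.filter fun e => if h e ∈ J then e ∈ F1 else e ∈ F2
  have hin : ∀ e, h e ∈ J → (e ∈ F ↔ e ∈ F1) := by
    intro e he; simp only [F, mem_filter, mem_univ, true_and, if_pos he]
  have hout : ∀ e, h e ∉ J → (e ∈ F ↔ e ∈ F2) := by
    intro e he; simp only [F, mem_filter, mem_univ, true_and, if_neg he]
  have hI : ∀ X : Finset W, X ⊆ J → ar h t F X = ar h t F1 X := by
    intro X hX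
    exact ar_congr fun e he => hin e (hX he.1)
  have hIc : ∀ X : Finset W, X ⊆ J → ar h t Fᶜ X = ar h t F1ᶜ X := by
    intro X hX
    refine ar_congr fun e he => ?_
    rw [mem_compl, mem_compl, hin e (hX he.1)]
  have hUC : ∀ X : Finset W, UC J X → ∀ e, en h t e X → (e ∈ F ↔ e ∈ F2) := by
    intro X hX e he
    by_cases hh : h e ∈ J
    · rw [hin e hh]
      refine hag e ⟨hh, ?_⟩
      rcases hX with hX | hX
      · exact absurd hh (disjoint_left.1 hX he.1)
      · exact he.2.mono hX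
    · exact hout e hh
  have hO : ∀ X : Finset W, UC J X → ar h t F X = ar h t F2 X := by
    intro X hX
    exact ar_congr (hUC X hX)
  have hOc : ∀ X : Finset W, UC J X → ar h t Fᶜ X = ar h t F2ᶜ X := by
    intro X hX
    refine ar_congr fun e he => ?_
    rw [mem_compl, mem_compl, hUC X hX e he]
  refine ⟨F, ?_, ?_, ?_⟩
  · intro e
    by_cases he : h e ∈ J
    · rw [hin e he, hin (P e) (by rw [hD.hd]; exact he)]
      exact h1.tr e he
    · rw [hout e he, hout (P e) (by rw [hD.hd]; exact he)]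
      exact tr2 e he
  · intro X hX
    by_cases hd : Disjoint X J
    · rw [hO X (Or.inl hd)]; exact l2 X hX (Or.inl hd)
    · have hne : (X ∩ J).Nonempty := by
        rw [nonempty_iff_ne_empty]; intro h0; exact hd (disjoint_iff_inter_eq_empty.2 h0)
      have e1 : 2 ≤ ar h t F (X ∩ J) := by
        rw [hI _ inter_subset_right]; exact h1.l _ hne inter_subset_right
      have e2 : 2 ≤ ar h t F (X ∪ J) := by
        rw [hO _ (Or.inr subset_union_right)]
        exact l2 _ (hX.mono subset_union_left) (Or.inr subset_union_right)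
      have e3 := ar_add (h := h) (t := t) F X J
      have e4 : ar h t F J ≤ 3 := by rw [hO J (Or.inr subset_rfl)]; exact hJ3
      by_contra hlt
      have e5 : ar h t F (X ∩ J) = 2 := by omega
      have e6 : ar h t F (X ∪ J) = 2 := by omega
      rw [hI _ inter_subset_right] at e5
      rw [hO _ (Or.inr subset_union_right)] at e6
      obtain ⟨e, he, hcase⟩ := hbad (X ∪ J) subset_union_right e6 (X ∩ J) hne
        inter_subset_right e5
      have hpos : 0 < (F.filter (fun e => cr h t e X J)).card := by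
        rw [card_pos]
        refine ⟨e, ?_⟩
        rw [mem_filter]
        rcases hcase with ⟨c1, u, c2, c3⟩ | ⟨c1, u, c2, c3⟩
        · rw [mem_sdiff] at c1 c2
          have c4 : u ∈ X := by
            have := c2.1; rw [mem_union] at this; exact this.resolve_right c2.2
          have c5 : h e ∉ X := fun hh => c1.2 (mem_inter.2 ⟨hh, c1.1⟩)
          have c6 : Out J (t e) := by rw [c3, out_some]; exact c2.2
          refine ⟨?_, Or.inr ⟨c1.1, c5, c6, ?_⟩⟩
          · rw [hin e c1.1, hag e ⟨c1.1, c6⟩]; exact he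
          · rw [c3, out_some]; exact fun hh => hh c4
        · rw [mem_sdiff] at c1 c2
          have c4 : h e ∈ X := by
            have := c1.1; rw [mem_union] at this; exact this.resolve_right c1.2
          have c5 : u ∉ X := fun hh => c2.2 (mem_inter.2 ⟨hh, c2.1⟩)
          refine ⟨?_, Or.inl ⟨c4, c1.2, ?_, ?_⟩⟩
          · rw [hout e c1.2]; exact he
          · rw [c3, out_some]; exact c5
          · rw [c3, out_some]; exact fun hh => hh c2.1
      omega
  · refine glue_tight (J := J) (fun X hX hXJ => ?_) (fun X hX hXJ => ?_) ?_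
    · rw [hOc X hXJ]; exact r2 X hX hXJ
    · rw [hIc X hXJ]; exact h1.r X hX hXJ
    · rw [hOc J (Or.inr subset_rfl)]; exact hJ2

/-! ### relabelling -/

theorem Five.symm {J : Finset W} {a b p : E} (inv : ∀ e, P (P e) = e)
    (h5 : Five h t P J a b p) : Five h t P J b a p := by
  refine ⟨h5.eb, h5.eb', h5.ea, h5.ea', h5.ep, h5.ab.symm, ?_, h5.pb, h5.pb', h5.pa, h5.pa', ?_⟩
  · intro h1; exact h5.ab' (by rw [← h1, inv])
  · intro e he
    rcases h5.all e he with h1 | h1 | h1 | h1 | h1 <;> tauto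

theorem Five.flip {J : Finset W} {a b p : E} (inv : ∀ e, P (P e) = e)
    (h5 : Five h t P J a b p) : Five h t P J (P a) b p := by
  refine ⟨h5.ea', by rw [inv]; exact h5.ea, h5.eb, h5.eb', h5.ep, h5.ab', by rw [inv]; exact h5.ab,
    h5.pa', by rw [inv]; exact h5.pa, h5.pb, h5.pb', ?_⟩
  intro e he
  rw [inv]
  rcases h5.all e he with h1 | h1 | h1 | h1 | h1 <;> tauto

theorem GadSol.symm {J A : Finset W} {a b : E} {F : Finset E} (hF : GadSol h t P J A a b F) :
    GadSol h t P J A b a F := ⟨hF.tr, hF.trb, hF.tra, hF.l, hF.r, hF.key⟩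

/-- numbers of boundary arcs of the two colours -/
theorem Five.colours {J : Finset W} {a b p : E} (hD : Inst h t P) (h5 : Five h t P J a b p)
    {F : Finset E} (ha : a ∈ F ↔ P a ∉ F) (hb : b ∈ F ↔ P b ∉ F) (hp : p ∈ F) :
    ar h t F J = 3 ∧ ar h t Fᶜ J = 2 := by
  have h1 := card_filter_boundary h5 hD (fun e => e ∈ F)
  have h2 : ar h t F J = (univ.filter (fun e => en h t e J ∧ e ∈ F)).card := by
    unfold ar
    congr 1
    ext e
    simp only [mem_filter, mem_univ, true_and]
    tauto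
  have h3 := ar_add_compl (h := h) (t := t) F J
  rw [five_card hD h5] at h3
  have h4 : ar h t F J = 3 := by
    rw [h2, h1]
    by_cases c1 : a ∈ F <;> by_cases c2 : b ∈ F <;> simp_all
  exact ⟨h4, by omega⟩

/-! ### inside: re-tailed instances -/

/-- moving the tail of `x` from outside `J` to `z` -/
theorem retail_ar {J : Finset W} {x : E} (hx : en h t x J) (z : W) (C : Finset E)
    {X : Finset W} (hX : X ⊆ J) :
    ar h t C X = ar h (Function.update t x (some z)) C X +
      (if x ∈ C ∧ h x ∈ X ∧ z ∈ X then 1 else 0) := by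
  classical
  unfold ar
  have hen : ∀ e, e ≠ x → (en h (Function.update t x (some z)) e X ↔ en h t e X) := by
    intro e he
    unfold en
    rw [Function.update_of_ne he]
  have hx1 : en h t x X ↔ h x ∈ X := ⟨fun h => h.1, fun h => ⟨h, hx.2.mono hX⟩⟩
  have hx2 : en h (Function.update t x (some z)) x X ↔ h x ∈ X ∧ z ∉ X := by
    unfold en
    rw [Function.update_self, out_some]
  split_ifs with hc
  · have : C.filter (fun e => en h t e X) =
        insert x (C.filter (fun e => en h (Function.update t x (some z)) e X)) := by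
      ext e
      rw [mem_insert, mem_filter, mem_filter]
      by_cases he : e = x
      · subst he
        simp [hc.1, hx1, hc.2.1]
      · rw [hen e he]; simp [he]
    rw [this, card_insert_of_notMem]
    rw [mem_filter, hx2]
    exact fun hh => hh.2.2 hc.2.2
  · rw [add_zero]
    congr 1
    ext e
    rw [mem_filter, mem_filter]
    by_cases he : e = x
    · subst he
      rw [hx1, hx2]
      tauto
    · rw [hen e he]

/-- choose the colour of `a` by a swap of `a` and `P a` -/
theorem InSol.setA {J : Finset W} {F : Finset E} {τ : E → Option W} (hF : InSol h τ P J F)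
    (inv : ∀ e, P (P e) = e) (hd : ∀ e, h (P e) = h e) {a : E}
    (ea : en h τ a J) (ea' : en h τ (P a) J) (c : Prop) :
    ∃ F', InSol h τ P J F' ∧ (a ∈ F' ↔ c) ∧ ∀ e, e ≠ a → e ≠ P a → (e ∈ F' ↔ e ∈ F) := by
  classical
  by_cases hc : (a ∈ F ↔ c)
  · exact ⟨F, hF, hc, fun _ _ _ => Iff.rfl⟩
  · refine ⟨_, hF.swap inv hd ea ea', ?_, ?_⟩
    · rw [mem_map_equiv, Equiv.symm_swap, Equiv.swap_apply_left]
      have := hF.tr a ea.1
      tauto
    · intro e h1 h2
      rw [mem_map_equiv, Equiv.symm_swap, Equiv.swap_apply_of_ne_of_ne h1 h2]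

/-- matching all boundary colours when `p` has the right colour -/
theorem InSol.matchAll {J : Finset W} {F F2 : Finset E} {τ : E → Option W} {a b p : E}
    (hD : Inst h t P) (h5 : Five h t P J a b p) (hF : InSol h τ P J F)
    (ea : en h τ a J) (ea' : en h τ (P a) J) (eb : en h τ b J) (eb' : en h τ (P b) J)
    (ha : a ∈ F2 ↔ P a ∉ F2) (hb : b ∈ F2 ↔ P b ∉ F2) (hp : p ∈ F ↔ p ∈ F2) :
    ∃ F', InSol h τ P J F' ∧ ∀ e, en h t e J → (e ∈ F' ↔ e ∈ F2) := by
  have h1 : P a ≠ P b := fun h => h5.ab (by rw [← hD.inv a, h, hD.inv])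
  have h2 : a ≠ P b := fun h => h5.ab' (by rw [h, hD.inv])
  obtain ⟨F3, hF3, ha3, hr3⟩ := hF.setA hD.inv hD.hd ea ea' (a ∈ F2)
  obtain ⟨F4, hF4, hb4, hr4⟩ := hF3.setA hD.inv hD.hd eb eb' (b ∈ F2)
  have ha4 : a ∈ F4 ↔ a ∈ F2 := by rw [hr4 a h5.ab h2, ha3]
  have hp4 : p ∈ F4 ↔ p ∈ F2 := by rw [hr4 p h5.pb h5.pb', hr3 p h5.pa h5.pa', hp]
  refine ⟨F4, hF4, fun e he => ?_⟩
  have ta := hF4.tr a ea.1
  have tb := hF4.tr b eb.1
  rcases h5.all e he with rfl | rfl | rfl | rfl | rfl
  · exact ha4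
  · tauto
  · exact hb4
  · tauto
  · exact hp4

theorem retail_en {J : Finset W} {x e : E} {z : W} (he : e ≠ x) :
    en h (Function.update t x (some z)) e J ↔ en h t e J := by
  unfold en
  rw [Function.update_of_ne he]

/-- the case `x = a` -/
theorem match_a {J : Finset W} {F F2 : Finset E} {a b p : E} {z : W}
    (hD : Inst h t P) (h5 : Five h t P J a b p)
    (hF : InSol h (Function.update t a (some z)) P J F) (hz : z ∈ J)
    (ha : a ∈ F2 ↔ P a ∉ F2) (hb : b ∈ F2 ↔ P b ∉ F2) (hp : p ∈ F2) (hx : a ∈ F2) :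
    ∃ F', InSol h (Function.update t a (some z)) P J F' ∧
      ∀ e, en h t e J → (e ∈ F' ↔ e ∈ F2) := by
  classical
  have hJ : J.Nonempty := ⟨z, hz⟩
  have h2 : a ≠ P b := fun h => h5.ab' (by rw [h, hD.inv])
  -- `a` and `p` have the same colour
  have hcount : ∀ F : Finset E, InSol h (Function.update t a (some z)) P J F →
      (p ∈ F ↔ a ∈ F) := by
    intro F hF
    have e1 := retail_ar h5.ea z F (subset_refl J)
    have e2 := retail_ar h5.ea z univ (subset_refl J)
    rw [five_card hD h5] at e2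
    have e3 := ar_add_compl (h := h) (t := Function.update t a (some z)) F J
    have e4 := hF.l J hJ subset_rfl
    have e5 := hF.r J hJ subset_rfl
    have e6 := card_filter_boundary h5 hD (fun e => e ∈ F)
    have e7 : ar h t F J = (univ.filter (fun e => en h t e J ∧ e ∈ F)).card := by
      unfold ar
      congr 1
      ext e
      simp only [mem_filter, mem_univ, true_and]
      tauto
    have e8 := hF.tr a h5.ea.1
    have e9 := hF.tr b h5.eb.1
    simp only [mem_univ, h5.ea.1, hz, and_self, if_true, and_true] at e1 e2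
    rw [e7, e6] at e1
    by_cases c1 : a ∈ F <;> by_cases c2 : b ∈ F <;> by_cases c3 : p ∈ F <;>
      simp_all <;> omega
  have hstep : ∃ F3 : Finset E, InSol h (Function.update t a (some z)) P J F3 ∧ p ∈ F3 := by
    by_cases hpF : p ∈ F
    · exact ⟨F, hF, hpF⟩
    · exact ⟨Fᶜ, hF.compl, by rw [mem_compl]; exact hpF⟩
  obtain ⟨F3, hF3, hp3⟩ := hstep
  obtain ⟨F4, hF4, hb4, hr4⟩ := hF3.setA hD.inv hD.hd ((retail_en h5.ab.symm).2 h5.eb)
    ((retail_en h2.symm).2 h5.eb') (b ∈ F2)
  have hp4 : p ∈ F4 := by rw [hr4 p h5.pb h5.pb']; exact hp3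
  have ha4 : a ∈ F4 := (hcount F4 hF4).1 hp4
  refine ⟨F4, hF4, fun e he => ?_⟩
  have ta := hF4.tr a h5.ea.1
  have tb := hF4.tr b h5.eb.1
  rcases h5.all e he with rfl | rfl | rfl | rfl | rfl
  · tauto
  · tauto
  · exact hb4
  · tauto
  · tauto

/-- inner solutions of the re-tailed instance with prescribed boundary colours -/
theorem inner_match {n : ℕ} (hB : Below n) (hD : Inst h t P) {J : Finset W} (hJn : J.card < n)
    {a b p : E} (h5 : Five h t P J a b p) {F2 : Finset E}
    (ha : a ∈ F2 ↔ P a ∉ F2) (hb : b ∈ F2 ↔ P b ∉ F2) (hp : p ∈ F2)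
    {x : E} {z : W} (hx : x ∈ F2) (hxb : en h t x J) (hz : z ∈ J)
    (hcut : ∀ X : Finset W, X ⊆ J → h x ∈ X → z ∈ X → 5 ≤ ar h t univ X) :
    ∃ F1, InSol h (Function.update t x (some z)) P J F1 ∧
      ∀ e, en h t e J → (e ∈ F1 ↔ e ∈ F2) := by
  classical
  obtain ⟨F, hF⟩ := exists_inSol (h := h) (t := Function.update t x (some z)) (P := P) hB J hJn
    (fun w _ => hD.deg w)
    (by
      intro X hX hXJ
      have h1 := retail_ar hxb z univ hXJ
      have h2 := hD.cut X hX
      by_cases hc : h x ∈ X ∧ z ∈ X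
      · have h3 := hcut X hXJ hc.1 hc.2
        simp only [mem_univ, hc, and_self, if_true] at h1
        omega
      · rw [if_neg (by tauto)] at h1
        omega) hD.inv hD.ne hD.hd
  rcases h5.all x hxb with rfl | rfl | rfl | rfl | rfl
  · exact match_a hD h5 hF hz ha hb hp hx
  · exact match_a hD (h5.flip hD.inv) hF hz (by rw [hD.inv]; tauto) hb hp hx
  · exact match_a hD (h5.symm hD.inv) hF hz hb ha hp hx
  · exact match_a hD ((h5.symm hD.inv).flip hD.inv) hF hz (by rw [hD.inv]; tauto) ha hp hx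
  · obtain ⟨F3, hF3, hp3⟩ : ∃ F3 : Finset E,
        InSol h (Function.update t x (some z)) P J F3 ∧ x ∈ F3 := by
      by_cases hpF : x ∈ F
      · exact ⟨F, hF, hpF⟩
      · exact ⟨Fᶜ, hF.compl, by rw [mem_compl]; exact hpF⟩
    exact hF3.matchAll hD h5 ((retail_en h5.pa.symm).2 h5.ea) ((retail_en h5.pa'.symm).2 h5.ea')
      ((retail_en h5.pb.symm).2 h5.eb) ((retail_en h5.pb'.symm).2 h5.eb') ha hb (by tauto)

/-! ### the end of the proof -/

/-- sets with at least two vertices inside `J` which contain the head of a complete pair -/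
theorem five_le (hB : Below (Fintype.card W)) (hD : Inst h t P) (hno : ¬ ∃ F, Sl h t P F)
    {J : Finset W} (hJn : J.card < Fintype.card W) {a : E} (ea : en h t a J)
    (ea' : en h t (P a) J) {X : Finset W} (hX : X ⊆ J) (hX2 : 2 ≤ X.card) (haX : h a ∈ X) :
    5 ≤ ar h t univ X := by
  have h1 := hD.cut X (card_pos.1 (by omega))
  by_contra hlt
  refine no_complete_pair hB hD hno hX2 (lt_of_le_of_lt (card_le_card hX) hJn) (by omega) a
    ⟨haX, ea.2.mono hX⟩ ⟨?_, ea'.2.mono hX⟩
  rw [hD.hd]; exact haX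

/-- `e` joins `z` and `U \ J` -/
def Joins (h : E → W) (t : E → Option W) (J U : Finset W) (e : E) (z : W) : Prop :=
  (h e = z ∧ ∃ u ∈ U \ J, t e = some u) ∨ (h e ∈ U \ J ∧ t e = some z)

/-- a solution of a gadget gives a contradiction -/
theorem no_gad (hB : Below (Fintype.card W)) (hD : Inst h t P) (hno : ¬ ∃ F, Sl h t P F)
    {J A : Finset W} (hJn : J.card < Fintype.card W) {a b p : E} (h5 : Five h t P J a b p)
    (hAJ : A ⊆ J) {F2 : Finset E} (hF2 : GadSol h t P J A a b F2) (hp : p ∈ F2)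
    (hz : h p ≠ h a → h p ≠ h b → ∃ S : Finset W, (S = A ∨ S = J \ A) ∧
      ∀ z ∈ S, ∀ X : Finset W, X ⊆ J → h p ∈ X → z ∈ X → 5 ≤ ar h t univ X) : False := by
  classical
  have hJ : J.Nonempty := ⟨_, h5.ea.1⟩
  obtain ⟨hc3, hc2⟩ := h5.colours hD hF2.tra hF2.trb hp
  by_cases hU : ∃ U : Finset W, J ⊆ U ∧ ar h t F2 U = 2
  · -- the smallest tight set containing `J`
    have hne : (univ.filter (fun U : Finset W => J ⊆ U ∧ ar h t F2 U = 2)).Nonempty := by
      obtain ⟨U, hU⟩ := hU
      exact ⟨U, by simpa using hU⟩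
    obtain ⟨U0, hU0, hmin⟩ := exists_min_image _ Finset.card hne
    rw [mem_filter] at hU0
    obtain ⟨-, hJU, hU2⟩ := hU0
    have hsub : ∀ U : Finset W, J ⊆ U → ar h t F2 U = 2 → U0 ⊆ U := by
      intro U h1 h2
      have e1 := ar_submod (h := h) (t := t) F2 U0 U
      have e2 := hF2.l (U0 ∩ U) (hJ.mono (subset_inter hJU h1)) (Or.inr (subset_inter hJU h1))
      have e3 := hF2.l (U0 ∪ U) (hJ.mono (hJU.trans subset_union_left))
        (Or.inr (hJU.trans subset_union_left))
      have e4 := hmin (U0 ∩ U) (by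
        rw [mem_filter]
        exact ⟨mem_univ _, subset_inter hJU h1, by omega⟩)
      have e5 : U0 ∩ U = U0 := eq_of_subset_of_card_le inter_subset_left e4
      rw [← e5]; exact inter_subset_right
    -- a boundary arc of the colour of `p` with tail in `U0`
    obtain ⟨x, hx, hxb, ux, hux, htx⟩ : ∃ x ∈ F2, en h t x J ∧ ∃ u ∈ U0 \ J, t x = some u := by
      by_contra hcon
      push Not at hcon
      have hle : ar h t F2 J ≤ ar h t F2 U0 := by
        unfold ar
        refine card_le_card ?_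
        intro e he
        rw [mem_filter] at he ⊢
        refine ⟨he.1, hJU he.2.1, ?_⟩
        rcases hte : t e with _ | u
        · simp
        · rw [out_some]
          intro hu
          have h1 := he.2.2
          rw [hte, out_some] at h1
          exact hcon e he.1 he.2 u (mem_sdiff.2 ⟨hu, h1⟩) hte
      omega
    have hkey : ∀ S : Finset W, (S = A ∨ S = J \ A) → ∃ z ∈ S, ∃ e ∈ F2, Joins h t J U0 e z := by
      intro S hS
      obtain ⟨e, he, hc⟩ := hF2.key U0 hJU hU2 hc3 S hS
      rcases hc with ⟨c1, c2⟩ | ⟨c1, u, c2, c3⟩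
      · exact ⟨h e, c1, e, he, Or.inl ⟨rfl, c2⟩⟩
      · exact ⟨u, c2, e, he, Or.inr ⟨c1, c3⟩⟩
    -- the new tail of `x`
    obtain ⟨z, hzJ, ez, hez, hjoin, hcut⟩ : ∃ z ∈ J, ∃ e ∈ F2, Joins h t J U0 e z ∧
        ∀ X : Finset W, X ⊆ J → h x ∈ X → z ∈ X → 5 ≤ ar h t univ X := by
      obtain ⟨zA, hzA, eA, heA, hjA⟩ := hkey A (Or.inl rfl)
      obtain ⟨zB, hzB, eB, heB, hjB⟩ := hkey (J \ A) (Or.inr rfl)
      have hother : ∃ z ∈ J, ∃ e ∈ F2, Joins h t J U0 e z ∧ z ≠ h x := by
        by_cases hzx : zA = h x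
        · refine ⟨zB, (mem_sdiff.1 hzB).1, eB, heB, hjB, ?_⟩
          rintro rfl
          exact (mem_sdiff.1 hzB).2 (hzx ▸ hzA)
        · exact ⟨zA, hAJ hzA, eA, heA, hjA, hzx⟩
      by_cases hxa : h x = h a
      · obtain ⟨z, h1, e, h2, h3, h4⟩ := hother
        refine ⟨z, h1, e, h2, h3, fun X hX hxX hzX => ?_⟩
        refine five_le hB hD hno hJn h5.ea h5.ea' hX ?_ (hxa ▸ hxX)
        exact one_lt_card.2 ⟨z, hzX, h x, hxX, h4⟩
      · by_cases hxb' : h x = h b
        · obtain ⟨z, h1, e, h2, h3, h4⟩ := hother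
          refine ⟨z, h1, e, h2, h3, fun X hX hxX hzX => ?_⟩
          refine five_le hB hD hno hJn h5.eb h5.eb' hX ?_ (hxb' ▸ hxX)
          exact one_lt_card.2 ⟨z, hzX, h x, hxX, h4⟩
        · have hxp : x = p := by
            rcases h5.all x hxb with h1 | h1 | h1 | h1 | h1
            · exact absurd (by rw [h1]) hxa
            · exact absurd (by rw [h1, hD.hd]) hxa
            · exact absurd (by rw [h1]) hxb'
            · exact absurd (by rw [h1, hD.hd]) hxb'
            · exact h1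
          rw [hxp] at hxa hxb'
          obtain ⟨S, hS, hS2⟩ := hz hxa hxb'
          obtain ⟨z, h1, e, h2, h3⟩ := hkey S hS
          have hzJ : z ∈ J := by
            rcases hS with rfl | rfl
            · exact hAJ h1
            · exact (mem_sdiff.1 h1).1
          exact ⟨z, hzJ, e, h2, h3, fun X hX hxX hzX => hS2 z h1 X hX (hxp ▸ hxX) hzX⟩
    obtain ⟨F1, hF1, hag⟩ := inner_match hB hD hJn h5 hF2.tra hF2.trb hp hx hxb hzJ hcut
    have hxF1 : x ∈ F1 := (hag x hxb).2 hx
    have hF1' : InSol h t P J F1 := by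
      refine ⟨hF1.tr, fun X hX hXJ => ?_, fun X hX hXJ => ?_⟩
      · have e1 := retail_ar hxb z F1 hXJ
        have e2 := hF1.l X hX hXJ
        omega
      · have e1 := retail_ar hxb z F1ᶜ hXJ
        have e2 := hF1.r X hX hXJ
        omega
    refine hno (glue5 hD hJ hF1' hF2.tr hF2.l hF2.r hag hc3.le hc2.le ?_)
    intro U hJU' hU2' X hX hXJ hX2
    have hU0U := hsub U hJU' hU2'
    have hUJ : U0 \ J ⊆ U \ J := sdiff_subset_sdiff hU0U subset_rfl
    by_cases hhx : h x ∈ X
    · by_cases hzX : z ∈ X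
      · exfalso
        have e1 := retail_ar hxb z F1 hXJ
        have e2 := hF1.l X hX hXJ
        rw [if_pos ⟨hxF1, hhx, hzX⟩] at e1
        omega
      · rcases hjoin with ⟨h1, u, h2, h3⟩ | ⟨h1, h3⟩
        · exact ⟨ez, hez, Or.inl ⟨mem_sdiff.2 ⟨h1 ▸ hzJ, h1 ▸ hzX⟩, u, hUJ h2, h3⟩⟩
        · exact ⟨ez, hez, Or.inr ⟨hUJ h1, z, mem_sdiff.2 ⟨hzJ, hzX⟩, h3⟩⟩
    · exact ⟨x, hx, Or.inl ⟨mem_sdiff.2 ⟨hxb.1, hhx⟩, ux, hUJ hux, htx⟩⟩
  · -- no tight set: every inner solution fits
    obtain ⟨F, hF⟩ := exists_inSol hB J hJn (fun w _ => hD.deg w)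
      (fun X hX _ => hD.cut X hX) hD.inv hD.ne hD.hd
    obtain ⟨F3, hF3, hp3⟩ : ∃ F3 : Finset E, InSol h t P J F3 ∧ p ∈ F3 := by
      by_cases hpF : p ∈ F
      · exact ⟨F, hF, hpF⟩
      · exact ⟨Fᶜ, hF.compl, by rw [mem_compl]; exact hpF⟩
    obtain ⟨F1, hF1, hag⟩ := hF3.matchAll hD h5 h5.ea h5.ea' h5.eb h5.eb' hF2.tra hF2.trb
      (by tauto)
    refine hno (glue5 hD hJ hF1 hF2.tr hF2.l hF2.r hag hc3.le hc2.le ?_)
    intro U h1 h2
    exact absurd ⟨U, h1, h2⟩ hU

/-- gadget with the small side `{h a}` -/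
theorem no_vertex (hB : Below (Fintype.card W)) (hD : Inst h t P) (hno : ¬ ∃ F, Sl h t P F)
    {J : Finset W} (hJ3 : 3 ≤ J.card) (hJn : J.card < Fintype.card W) {a b p : E}
    (h5 : Five h t P J a b p)
    (hcut : ∀ X : Finset W, Disjoint X J → 5 ≤ ar h t univ (X ∪ J) ∨
      (∃ e, en h t e J ∧ h e ∈ ({h a} : Finset W) ∧ ¬ Out X (t e)) ∨
        ∃ e, h e ∈ X ∧ ¬ Out ({h a} : Finset W) (t e)) : False := by
  classical
  have haJ : ({h a} : Finset W) ⊆ J := singleton_subset_iff.2 h5.ea.1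
  have hA' : (J \ {h a}).Nonempty := by
    rw [← card_pos, card_sdiff_of_subset haJ, card_singleton]; omega
  have hA4 : ar h t univ ({h a} : Finset W) = 4 := by
    have h1 := hD.cut {h a} (singleton_nonempty _)
    have h2 : ar h t univ ({h a} : Finset W) ≤ 4 := by
      rw [← hD.deg (h a)]
      unfold ar
      refine card_le_card fun e he => ?_
      rw [mem_filter] at he ⊢
      exact ⟨he.1, mem_singleton.1 he.2.1⟩
    omega
  have hzz : h p ≠ h a → h p ≠ h b → ∃ S : Finset W, (S = {h a} ∨ S = J \ {h a}) ∧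
      ∀ z ∈ S, ∀ X : Finset W, X ⊆ J → h p ∈ X → z ∈ X → 5 ≤ ar h t univ X := by
    intro h1 _
    refine ⟨{h a}, Or.inl rfl, fun z hz X hX hpX hzX => ?_⟩
    rw [mem_singleton] at hz
    subst hz
    exact five_le hB hD hno hJn h5.ea h5.ea' hX (one_lt_card.2 ⟨_, hpX, _, hzX, h1⟩) hzX
  by_cases hva : h p = h a
  · -- `p` has the head of `a`; then `b` has another head
    have hba : h b ≠ h a := by
      intro hba
      have h1 := hD.deg (h a)
      have h2 : ({a, P a, b, P b, p} : Finset E) ⊆ univ.filter (fun e => h e = h a) := by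
        intro e he
        rw [mem_filter]
        refine ⟨mem_univ _, ?_⟩
        simp only [mem_insert, mem_singleton] at he
        rcases he with rfl | rfl | rfl | rfl | rfl
        · rfl
        · exact hD.hd _
        · exact hba
        · rw [hD.hd]; exact hba
        · exact hva
      have h3 := card_le_card h2
      rw [← h5.boundary] at h3
      have h4 : (univ.filter (fun e => en h t e J)).card = 5 := five_card hD h5
      omega
    let κ : W → Bool := fun w => decide (w ≠ h a)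
    obtain ⟨F2, hF2, hp⟩ := exists_gadSol (c := true) (κ := κ) (kA := false) hB hD
      (h5.symm hD.inv) (by omega) (by simp [κ, hba]) (by simp [κ]) (by simp [κ, hva]) haJ
      (singleton_nonempty _) hA' (by intro w _; simp [κ]) hA4 hcut
    exact no_gad hB hD hno hJn h5 haJ hF2.symm hp hzz
  · let κ : W → Bool := fun w => decide (w = h a)
    obtain ⟨F2, hF2, hp⟩ := exists_gadSol (c := !decide (h b = h a)) (κ := κ) (kA := true) hB hD
      h5 (by omega) (by simp [κ]) (by simp [κ]) (by simp [κ, hva]) haJ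
      (singleton_nonempty _) hA' (by intro w _; simp [κ]) hA4 hcut
    exact no_gad hB hD hno hJn h5 haJ hF2 hp hzz

end Pool.Agent.E457m
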