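import Pool.Agent.Lib_MP_e457e7_m.FiveS

/-!
Theorem 5S, final form.
-/

set_option autoImplicit false
set_option linter.unusedSectionVars false

namespace Pool.Agent.E457m

open Finset

variable {W E : Type} [Fintype W] [DecidableEq W] [Fintype E] [DecidableEq E]
variable {h : E → W} {t : E → Option W} {P : E → E}

theorem out_univ {o : Option W} (ho : Out (univ : Finset W) o) (X : Finset W) : Out X o :=
  ho.mono (subset_univ X)

/-- if the gadget at `h a` is not valid then `a`, `P a` are root arcs -/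
theorem root_of_bad (hB : Below (Fintype.card W)) (hD : Inst h t P) (hno : ¬ ∃ F, Sl h t P F)
    {J : Finset W} (hJ3 : 3 ≤ J.card) {a b p : E} (h5 : Five h t P J a b p)
    (hbad : ¬ ∀ X : Finset W, Disjoint X J → 5 ≤ ar h t univ (X ∪ J) ∨
      (∃ e, en h t e J ∧ h e ∈ ({h a} : Finset W) ∧ ¬ Out X (t e)) ∨
        ∃ e, h e ∈ X ∧ ¬ Out ({h a} : Finset W) (t e)) :
    ar h t univ univ = 4 ∧ ∀ e, en h t e J → h e = h a → Out univ (t e) := by
  push Not at hbad
  obtain ⟨X, hd, h1, h2, -⟩ := hbad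
  have h3 : ∀ e, en h t e J → h e = h a → Out (X ∪ J) (t e) := by
    intro e he hea
    rw [out_union]
    exact ⟨h2 e he (mem_singleton.2 hea), he.2⟩
  have hne : (X ∪ J).Nonempty := ⟨_, mem_union_right _ h5.ea.1⟩
  have h4 := hD.cut (X ∪ J) hne
  have hcard : J.card ≤ (X ∪ J).card := card_le_card subset_union_right
  have huniv : X ∪ J = univ := by
    by_contra hnu
    have hlt : (X ∪ J).card < Fintype.card W := by
      rw [← card_univ]
      exact card_lt_card ⟨subset_univ _, fun h => hnu (univ_subset_iff.1 h)⟩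
    refine no_complete_pair hB hD hno (by omega) hlt (by omega) a
      ⟨mem_union_right _ h5.ea.1, h3 a h5.ea rfl⟩ ⟨mem_union_right _ h5.ea'.1, ?_⟩
    exact h3 (P a) h5.ea' (hD.hd a)
  rw [huniv] at h1 h4 h3
  exact ⟨by omega, h3⟩

/-- **Theorem 5S** (T(2;M), class CC): in a minimal counterexample no set `J` with `3 ≤ |J| < n`
is entered by exactly two complete pairs and one more arc. -/
theorem five_s (hB : Below (Fintype.card W)) (hD : Inst h t P) (hno : ¬ ∃ F, Sl h t P F)
    {J : Finset W} (hJ3 : 3 ≤ J.card) (hJn : J.card < Fintype.card W) {a b p : E}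
    (h5 : Five h t P J a b p) : False := by
  classical
  by_cases hTa : ∀ X : Finset W, Disjoint X J → 5 ≤ ar h t univ (X ∪ J) ∨
      (∃ e, en h t e J ∧ h e ∈ ({h a} : Finset W) ∧ ¬ Out X (t e)) ∨
        ∃ e, h e ∈ X ∧ ¬ Out ({h a} : Finset W) (t e)
  · exact no_vertex hB hD hno hJ3 hJn h5 hTa
  by_cases hTb : ∀ X : Finset W, Disjoint X J → 5 ≤ ar h t univ (X ∪ J) ∨
      (∃ e, en h t e J ∧ h e ∈ ({h b} : Finset W) ∧ ¬ Out X (t e)) ∨
        ∃ e, h e ∈ X ∧ ¬ Out ({h b} : Finset W) (t e)
  · exact no_vertex hB hD hno hJ3 hJn (h5.symm hD.inv) hTb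
  obtain ⟨hu4, hra⟩ := root_of_bad hB hD hno hJ3 h5 hTa
  obtain ⟨-, hrb⟩ := root_of_bad hB hD hno hJ3 (h5.symm hD.inv) hTb
  have oa := hra a h5.ea rfl
  have oa' := hra (P a) h5.ea' (hD.hd a)
  have ob := hrb b h5.eb rfl
  have ob' := hrb (P b) h5.eb' (hD.hd b)
  -- `p` is not a root arc
  have hpr : ¬ Out univ (t p) := by
    intro op
    have h1 : univ.filter (fun e => en h t e J) ⊆ univ.filter (fun e => en h t e univ) := by
      intro e he
      rw [mem_filter] at he ⊢
      refine ⟨mem_univ _, mem_univ _, ?_⟩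
      rcases h5.all e he.2 with rfl | rfl | rfl | rfl | rfl
      exacts [oa, oa', ob, ob', op]
    have h2 := card_le_card h1
    have h3 : (univ.filter (fun e => en h t e J)).card = 5 := five_card hD h5
    have h4 : (univ.filter (fun e => en h t e (univ : Finset W))).card = 4 := hu4
    omega
  have hpa : h p ≠ h a := fun h1 => hpr (hra p h5.ep h1)
  have hpb : h p ≠ h b := fun h1 => hpr (hrb p h5.ep h1)
  obtain ⟨u, hu⟩ : ∃ u, t p = some u := by
    rcases htp : t p with _ | u
    · rw [htp] at hpr; simp at hpr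
    · exact ⟨u, rfl⟩
  have huJ : u ∉ J := by
    have := h5.ep.2
    rwa [hu, out_some] at this
  -- the largest 4-set inside `J` containing the head of `p`
  have hsing : ar h t univ ({h p} : Finset W) = 4 := by
    have h1 := hD.cut {h p} (singleton_nonempty _)
    have h2 : ar h t univ ({h p} : Finset W) ≤ 4 := by
      rw [← hD.deg (h p)]
      unfold ar
      refine card_le_card fun e he => ?_
      rw [mem_filter] at he ⊢
      exact ⟨he.1, mem_singleton.1 he.2.1⟩
    omega
  have hne : (univ.filter (fun X : Finset W => X ⊆ J ∧ h p ∈ X ∧ ar h t univ X = 4)).Nonempty :=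
    ⟨{h p}, by
      rw [mem_filter]
      exact ⟨mem_univ _, singleton_subset_iff.2 h5.ep.1, mem_singleton_self _, hsing⟩⟩
  obtain ⟨H, hH, hmax⟩ := exists_max_image _ Finset.card hne
  rw [mem_filter] at hH
  obtain ⟨-, hHJ, hpH, hH4⟩ := hH
  have hsubH : ∀ X : Finset W, X ⊆ J → h p ∈ X → ar h t univ X = 4 → X ⊆ H := by
    intro X h1 h2 h3
    have e1 := ar_submod (h := h) (t := t) univ X H
    have e2 := hD.cut (X ∩ H) ⟨h p, mem_inter.2 ⟨h2, hpH⟩⟩
    have e3 := hD.cut (X ∪ H) ⟨h p, mem_union_left _ h2⟩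
    have e4 := hmax (X ∪ H) (by
      rw [mem_filter]
      exact ⟨mem_univ _, union_subset h1 hHJ, mem_union_left _ h2, by omega⟩)
    have e5 : H = X ∪ H := eq_of_subset_of_card_le subset_union_right e4
    rw [e5]; exact subset_union_left
  have haH : h a ∉ H := by
    intro h1
    have := five_le hB hD hno hJn h5.ea h5.ea' hHJ (one_lt_card.2 ⟨_, hpH, _, h1, hpa⟩) h1
    omega
  have hbH : h b ∉ H := by
    intro h1
    have := five_le hB hD hno hJn h5.eb h5.eb' hHJ (one_lt_card.2 ⟨_, hpH, _, h1, hpb⟩) h1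
    omega
  let κ : W → Bool := fun w => decide (w ∉ H)
  obtain ⟨F2, hF2, hp⟩ := exists_gadSol (c := false) (κ := κ) (kA := false) hB hD h5 (by omega)
    (by simp [κ, haH]) (by simp [κ, hbH]) (by simp [κ, hpH]) hHJ ⟨_, hpH⟩
    ⟨h a, mem_sdiff.2 ⟨h5.ea.1, haH⟩⟩ (by intro w _; simp [κ]) hH4
    (by
      intro X hd
      by_cases h1 : 5 ≤ ar h t univ (X ∪ J)
      · exact Or.inl h1
      right; left
      have hne : (X ∪ J).Nonempty := ⟨_, mem_union_right _ h5.ea.1⟩
      have h4 := hD.cut (X ∪ J) hne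
      have hcard : J.card ≤ (X ∪ J).card := card_le_card subset_union_right
      have huniv : X ∪ J = univ := by
        by_contra hnu
        have hlt : (X ∪ J).card < Fintype.card W := by
          rw [← card_univ]
          exact card_lt_card ⟨subset_univ _, fun h => hnu (univ_subset_iff.1 h)⟩
        exact no_complete_pair hB hD hno (by omega) hlt (by omega) a
          ⟨mem_union_right _ h5.ea.1, out_univ oa _⟩
          ⟨mem_union_right _ h5.ea'.1, out_univ oa' _⟩
      refine ⟨p, h5.ep, hpH, ?_⟩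
      rw [hu, out_some]
      intro hX
      have : u ∈ X ∪ J := by rw [huniv]; exact mem_univ _
      rw [mem_union] at this
      tauto)
  refine no_gad hB hD hno hJn h5 hHJ hF2 hp fun _ _ => ⟨J \ H, Or.inr rfl, ?_⟩
  intro z hz X hX hpX hzX
  have h1 := hD.cut X ⟨_, hpX⟩
  by_contra hlt
  exact (mem_sdiff.1 hz).2 (hsubH X hX hpX (by omega) hzX)

end Pool.Agent.E457m
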