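import Pool.Agent.Lib_MP_e457e7_m.Glue

/-!
The two-vertex gadget: outer solutions for a set `J` with five entering arcs, two complete pairs
`a, P a` and `b, P b` and one more arc `p`.  `J` is replaced by two vertices `true`, `false`
(`κ : W → Bool` on `J`), with three new arcs between them.
-/

set_option autoImplicit false
set_option linter.unusedSectionVars false

namespace Pool.Agent.E457m

open Finset

variable {W E : Type} [Fintype W] [DecidableEq W] [Fintype E] [DecidableEq E]
variable {h : E → W} {t : E → Option W} {P : E → E}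

/-- `J` is entered by exactly the five arcs `a, P a, b, P b, p` -/
structure Five (h : E → W) (t : E → Option W) (P : E → E) (J : Finset W) (a b p : E) : Prop where
  ea : en h t a J
  ea' : en h t (P a) J
  eb : en h t b J
  eb' : en h t (P b) J
  ep : en h t p J
  ab : a ≠ b
  ab' : P a ≠ b
  pa : p ≠ a
  pa' : p ≠ P a
  pb : p ≠ b
  pb' : p ≠ P b
  all : ∀ e, en h t e J → e = a ∨ e = P a ∨ e = b ∨ e = P b ∨ e = p

/-- heads of the new arcs -/
def gH (c : Bool) (l : Fin 3) : Bool := if l = 0 then false else c

/-- tails of the new arcs -/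
def gT (c : Bool) (l : Fin 3) : Option Bool := some (!gH c l)

theorem gT_ne (c : Bool) (l : Fin 3) : gT c l ≠ none := by simp [gT]

theorem Five.boundary {J : Finset W} {a b p : E} (h5 : Five h t P J a b p) :
    univ.filter (fun e => en h t e J) = {a, P a, b, P b, p} := by
  ext e
  simp only [mem_filter, mem_univ, true_and, mem_insert, mem_singleton]
  constructor
  · exact h5.all e
  · rintro (rfl | rfl | rfl | rfl | rfl)
    exacts [h5.ea, h5.ea', h5.eb, h5.eb', h5.ep]

/-- sums over the boundary -/
theorem Five.sum {J : Finset W} {a b p : E} (h5 : Five h t P J a b p) (hD : Inst h t P)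
    (f : E → ℕ) : ∑ e ∈ univ.filter (fun e => en h t e J), f e =
      f a + f (P a) + f b + f (P b) + f p := by
  have h1 : P a ≠ P b := fun h => h5.ab (by rw [← hD.inv a, h, hD.inv])
  have h2 : a ≠ P b := fun h => h5.ab' (by rw [h, hD.inv])
  rw [h5.boundary, sum_insert, sum_insert, sum_insert, sum_insert, sum_singleton]
  · ring
  · rw [mem_singleton]; exact fun h => h5.pb' h.symm
  · simp only [mem_insert, mem_singleton, not_or]
    exact ⟨fun h => hD.ne b h.symm, fun h => h5.pb h.symm⟩
  · simp only [mem_insert, mem_singleton, not_or]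
    exact ⟨h5.ab', h1, fun h => h5.pa' h.symm⟩
  · simp only [mem_insert, mem_singleton, not_or]
    exact ⟨fun h => hD.ne a h.symm, h5.ab, h2, fun h => h5.pa h.symm⟩

theorem card_filter_boundary {J : Finset W} {a b p : E} (h5 : Five h t P J a b p)
    (hD : Inst h t P) (Q : E → Prop) [DecidablePred Q] :
    (univ.filter (fun e => en h t e J ∧ Q e)).card =
      (if Q a then 1 else 0) + (if Q (P a) then 1 else 0) + (if Q b then 1 else 0) +
        (if Q (P b) then 1 else 0) + (if Q p then 1 else 0) := by
  rw [← h5.sum hD (fun e => if Q e then 1 else 0), ← filter_filter, card_filter]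

theorem Sl.compl {F : Finset E} (hF : Sl h t P F) : Sl h t P Fᶜ := by
  refine ⟨fun e => ?_, hF.r, ?_⟩
  · have := hF.tr e
    simp only [mem_compl]
    tauto
  · rw [compl_compl]; exact hF.l

/-- what a solution of the gadget gives outside `J` -/
structure GadSol (h : E → W) (t : E → Option W) (P : E → E) (J A : Finset W) (a b : E)
    (F : Finset E) : Prop where
  tr : ∀ e, h e ∉ J → (e ∈ F ↔ P e ∉ F)
  tra : a ∈ F ↔ P a ∉ F
  trb : b ∈ F ↔ P b ∉ F
  l : ∀ X : Finset W, X.Nonempty → UC J X → 2 ≤ ar h t F X
  r : ∀ X : Finset W, X.Nonempty → UC J X → 2 ≤ ar h t Fᶜ X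
  key : ∀ U : Finset W, J ⊆ U → ar h t F U = 2 → ar h t F J = 3 →
    ∀ S : Finset W, (S = A ∨ S = J \ A) →
      ∃ e ∈ F, (h e ∈ S ∧ ∃ u ∈ U \ J, t e = some u) ∨ (h e ∈ U \ J ∧ ∃ u ∈ S, t e = some u)

section Gadget

variable {J : Finset W} {κ : W → Bool} {c : Bool} {a b p : E}

/-- the numbers of in-arcs of the gadget vertices -/
theorem four_at (hD : Inst h t P) (h5 : Five h t P J a b p) (ka : κ (h a) = true)
    (kb : κ (h b) = !c) (kp : κ (h p) = false) (k : Bool) :
    (univ.filter (fun e => en h t e J ∧ κ (h e) = k)).card +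
      (univ.filter (fun l : Fin 3 => gH c l = k)).card = 4 := by
  rw [card_filter_boundary h5 hD]
  have ka' : κ (h (P a)) = true := by rw [hD.hd]; exact ka
  have kb' : κ (h (P b)) = !c := by rw [hD.hd]; exact kb
  rw [ka, ka', kb, kb', kp]
  clear kb kb'
  revert c k
  decide

theorem five_card (hD : Inst h t P) (h5 : Five h t P J a b p) : ar h t univ J = 5 := by
  have h1 := card_filter_boundary h5 hD (fun _ => True)
  simp only [and_true, if_true] at h1
  exact h1

/-- the gadget exists -/
theorem exists_gadSol {n : ℕ} (hB : Below n) (hD : Inst h t P) (h5 : Five h t P J a b p)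
    (hJn : Fintype.card W + 2 < n + J.card)
    (ka : κ (h a) = true) (kb : κ (h b) = !c) (kp : κ (h p) = false)
    {A : Finset W} (hAJ : A ⊆ J) (hA : A.Nonempty) (hA' : (J \ A).Nonempty)
    {kA : Bool} (hκ : ∀ w ∈ J, (κ w = kA ↔ w ∈ A)) (hA4 : ar h t univ A = 4)
    (hcut : ∀ X : Finset W, Disjoint X J → 5 ≤ ar h t univ (X ∪ J) ∨
      (∃ e, en h t e J ∧ h e ∈ A ∧ ¬ Out X (t e)) ∨ ∃ e, h e ∈ X ∧ ¬ Out A (t e)) :
    ∃ F, GadSol h t P J A a b F ∧ p ∈ F := by
  classical
  have hbd : ∀ e : {e : E // h e ∉ J ∨ Out J (t e)}, h e.1 ∈ J → en h t e.1 J := by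
    intro e he
    exact ⟨he, e.2.resolve_left (fun h => h he)⟩
  have hJ : J.Nonempty := hA.mono hAJ
  have hfour := fun k => four_at hD h5 ka kb kp k
  -- the pairing
  have hPbd : ∀ e, en h t e J → e ≠ p → en h t (P e) J := by
    intro e he hep
    rcases h5.all e he with rfl | rfl | rfl | rfl | rfl
    · exact h5.ea'
    · rw [hD.inv]; exact h5.ea
    · exact h5.eb'
    · rw [hD.inv]; exact h5.eb
    · exact absurd rfl hep
  have hPp : ∀ e : {e : E // h e ∉ J ∨ Out J (t e)}, e.1 ≠ p → P e.1 ≠ p := by
    intro e hep hPe
    by_cases he : h e.1 ∈ J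
    · have h1 := hbd e he
      rcases h5.all e.1 h1 with h2 | h2 | h2 | h2 | h2
      · rw [h2] at hPe; exact h5.pa' hPe.symm
      · rw [h2, hD.inv] at hPe; exact h5.pa hPe.symm
      · rw [h2] at hPe; exact h5.pb' hPe.symm
      · rw [h2, hD.inv] at hPe; exact h5.pb hPe.symm
      · exact hep h2
    · apply he
      rw [← hD.hd, hPe]; exact h5.ep.1
  have hPok : ∀ e : {e : E // h e ∉ J ∨ Out J (t e)}, e.1 ≠ p →
      h (P e.1) ∉ J ∨ Out J (t (P e.1)) := by
    intro e hep
    by_cases he : h e.1 ∈ J
    · exact Or.inr (hPbd e.1 (hbd e he) hep).2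
    · exact Or.inl (by rw [hD.hd]; exact he)
  let p2 : {e : E // h e ∉ J ∨ Out J (t e)} := ⟨p, Or.inr h5.ep.2⟩
  let P2 : {e : E // h e ∉ J ∨ Out J (t e)} ⊕ Fin 3 → {e : E // h e ∉ J ∨ Out J (t e)} ⊕ Fin 3 :=
    Sum.elim (fun e => if hep : e.1 = p then Sum.inr 0 else Sum.inl ⟨P e.1, hPok e hep⟩)
      (fun l => if l = 0 then Sum.inl p2 else if l = 1 then Sum.inr 2 else Sum.inr 1)
  have hP2a : ∀ e : {e : E // h e ∉ J ∨ Out J (t e)}, e.1 = p → P2 (Sum.inl e) = Sum.inr 0 := by
    intro e he
    simp only [P2, Sum.elim_inl, dif_pos he]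
  have hP2b : ∀ e : {e : E // h e ∉ J ∨ Out J (t e)}, ∀ he : e.1 ≠ p,
      P2 (Sum.inl e) = Sum.inl ⟨P e.1, hPok e he⟩ := by
    intro e he
    simp only [P2, Sum.elim_inl, dif_neg he]
  have hP20 : P2 (Sum.inr 0) = Sum.inl p2 := rfl
  have hP21 : P2 (Sum.inr 1) = Sum.inr 2 := rfl
  have hP22 : P2 (Sum.inr 2) = Sum.inr 1 := rfl
  have hq1 : ∀ w, ∀ hw : w ∈ J, qt J κ w = Sum.inr (κ w) := by
    intro w hw; unfold qt; rw [dif_pos hw]
  have hq2 : ∀ w, ∀ hw : w ∉ J, qt J κ w = Sum.inl ⟨w, hw⟩ := by
    intro w hw; unfold qt; rw [dif_neg hw]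
  have hkB : ∀ w ∈ J, (κ w = (!kA) ↔ w ∈ J \ A) := by
    intro w hw
    rw [mem_sdiff, ← hκ w hw]
    cases κ w <;> cases kA <;> simp [hw]
  -- counting new arcs
  have hnew : ∀ (X : Finset ({w : W // w ∉ J} ⊕ Bool)) (k : Bool), Sum.inr k ∈ X →
      Sum.inr (!k) ∉ X → (univ.filter (fun l : Fin 3 => Sum.inr l ∈ (univ : Finset
        ({e : E // h e ∉ J ∨ Out J (t e)} ⊕ Fin 3)) ∧
        en (ouH h t J κ (gH c)) (ouT h t J κ (gT c)) (Sum.inr l) X)).card =
      (univ.filter (fun l : Fin 3 => gH c l = k)).card := by
    intro X k hk hk'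
    congr 1
    ext l
    simp only [mem_filter, mem_univ, true_and]
    constructor
    · rintro ⟨h1, h2⟩
      by_contra hne
      have : gH c l = !k := by revert hne; cases gH c l <;> cases k <;> simp
      have h3 : Sum.inr (gH c l) ∈ X := h1
      rw [this] at h3
      exact hk' h3
    · intro h1
      refine ⟨?_, ?_⟩
      · show Sum.inr (gH c l) ∈ X
        rw [h1]; exact hk
      · show Out X ((gT c l).map Sum.inr)
        unfold gT
        rw [Option.map_some, out_some, h1]
        exact hk'
  have hUC : ∀ X2 : Finset ({w : W // w ∉ J} ⊕ Bool), (Sum.inr kA ∈ X2 ↔ Sum.inr (!kA) ∈ X2) →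
      UC J (pl J κ X2) ∧ psh Bool J (pl J κ X2) = X2 := by
    intro X2 hk
    have hk' : ∀ k, (Sum.inr k ∈ X2 ↔ Sum.inr kA ∈ X2) := by
      intro k
      by_cases h1 : k = kA
      · rw [h1]
      · have : k = !kA := by revert h1; cases k <;> cases kA <;> simp
        rw [this]; exact hk.symm
    by_cases hX : Sum.inr kA ∈ X2
    · have hs : J ⊆ pl J κ X2 := by
        intro w hw
        rw [mem_pl, hq1 w hw, hk']; exact hX
      refine ⟨Or.inr hs, ?_⟩
      ext y
      rcases y with w | u
      · rw [inl_mem_psh, mem_pl, hq2 w.1 w.2]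
      · rw [inr_mem_psh, hk']
        exact ⟨fun _ => hX, fun _ => hs⟩
    · have hs : Disjoint (pl J κ X2) J := by
        rw [disjoint_right]
        intro w hw
        rw [mem_pl, hq1 w hw, hk']; exact hX
      refine ⟨Or.inl hs, ?_⟩
      ext y
      rcases y with w | u
      · rw [inl_mem_psh, mem_pl, hq2 w.1 w.2]
      · rw [inr_mem_psh, hk']
        constructor
        · intro h1
          obtain ⟨w, hw⟩ := hJ
          exact absurd hw (disjoint_left.1 hs (h1 hw))
        · intro h1; exact absurd h1 hX
  -- instance
  have hI : Inst (ouH h t J κ (gH c)) (ouT h t J κ (gT c)) P2 := by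
    refine ⟨?_, ?_, ?_, ?_, ?_⟩
    · intro w
      rw [card_filter_sum]
      rcases w with w | k
      · have h0 : (univ.filter (fun l : Fin 3 => ouH h t J κ (gH c) (Sum.inr l) =
            Sum.inl w)).card = 0 := by
          rw [card_eq_zero, filter_eq_empty_iff]
          rintro l - hl
          have hl' : (Sum.inr (gH c l) : {w : W // w ∉ J} ⊕ Bool) = Sum.inl w := hl
          exact absurd hl' (by simp)
        rw [h0, add_zero, ← hD.deg w.1]
        refine card_filter_sub _ _ ?_ ?_
        · intro e he
          by_contra hne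
          have he' : qt J κ (h e.1) = Sum.inl w := he
          by_cases hw : h e.1 ∈ J
          · rw [hq1 _ hw] at he'; exact absurd he' (by simp)
          · rw [hq2 _ hw] at he'
            exact hne (congrArg Subtype.val (Sum.inl_injective he'))
        · intro e he
          have hw : h e ∉ J := by rw [he]; exact w.2
          refine ⟨Or.inl hw, ?_⟩
          show qt J κ (h e) = Sum.inl w
          rw [hq2 _ hw]
          congr 1
          exact Subtype.ext he
      · rw [← hfour k]
        congr 1
        · refine card_filter_sub _ _ ?_ ?_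
          · intro e he
            have he' : qt J κ (h e.1) = Sum.inr k := he
            by_cases hw : h e.1 ∈ J
            · rw [hq1 _ hw] at he'
              exact ⟨hbd e hw, Sum.inr_injective he'⟩
            · rw [hq2 _ hw] at he'; exact absurd he' (by simp)
          · intro e he
            refine ⟨Or.inr he.1.2, ?_⟩
            show qt J κ (h e) = Sum.inr k
            rw [hq1 _ he.1.1, he.2]
        · congr 1
          ext l
          simp only [mem_filter, mem_univ, true_and]
          show (Sum.inr (gH c l) : {w : W // w ∉ J} ⊕ Bool) = Sum.inr k ↔ _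
          exact ⟨fun h => Sum.inr_injective h, fun h => by rw [h]⟩
    · intro X2 hX2
      by_cases hk : (Sum.inr kA ∈ X2 ↔ Sum.inr (!kA) ∈ X2)
      · obtain ⟨h1, h2⟩ := hUC X2 hk
        rw [← h2, ar_outer (F := univ) (fun e => by simp) (gT_ne c) h1]
        refine hD.cut _ ?_
        obtain ⟨y, hy⟩ := hX2
        rcases y with w | k
        · exact ⟨w.1, by rw [mem_pl, hq2 w.1 w.2]; exact hy⟩
        · have hkk : Sum.inr kA ∈ X2 := by
            by_cases hkA : k = kA
            · rw [← hkA]; exact hy
            · have : k = !kA := by revert hkA; cases k <;> cases kA <;> simp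
              rw [this] at hy
              exact hk.2 hy
          obtain ⟨w, hw⟩ := hA
          exact ⟨w, by rw [mem_pl, hq1 w (hAJ hw), (hκ w (hAJ hw)).2 hw]; exact hkk⟩
      · rw [ar_outer_gen (F := univ) (fun e => by simp) X2]
        set X : Finset W := pl J κ X2 with hX
        set S0 : Finset E := univ.filter (fun e => (h e ∉ J ∨ Out J (t e)) ∧ en h t e X) with hS0
        by_cases hkA : Sum.inr kA ∈ X2
        · have hkB' : Sum.inr (!kA) ∉ X2 := fun h => hk ⟨fun _ => h, fun _ => hkA⟩
          rw [hnew X2 kA hkA hkB']
          have hm : ∀ w ∈ J, (w ∈ X ↔ w ∈ A) := by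
            intro w hw
            rw [hX, mem_pl, hq1 w hw, ← hκ w hw]
            constructor
            · intro h1
              by_contra hne
              have : κ w = !kA := by revert hne; cases κ w <;> cases kA <;> simp
              rw [this] at h1
              exact hkB' h1
            · intro h1; rw [h1]; exact hkA
          have hXne : X.Nonempty := by
            obtain ⟨w, hw⟩ := hA
            exact ⟨w, (hm w (hAJ hw)).2 hw⟩
          have h4 := hD.cut X hXne
          set S1 : Finset E := univ.filter (fun e => en h t e A ∧ ¬ en h t e J) with hS1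
          have hsub : univ.filter (fun e => en h t e X) ⊆ S0 ∪ S1 := by
            intro e he
            rw [mem_filter] at he
            have he := he.2
            rw [mem_union, hS0, hS1, mem_filter, mem_filter]
            by_cases h1 : h e ∈ J
            · by_cases h2 : Out J (t e)
              · exact Or.inl ⟨mem_univ _, Or.inr h2, he⟩
              · right
                refine ⟨mem_univ _, ⟨(hm _ h1).1 he.1, ?_⟩, fun h => h2 h.2⟩
                rcases hte : t e with _ | w
                · simp
                · have he2 := he.2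
                  rw [hte] at h2 he2
                  rw [out_some] at h2 he2 ⊢
                  push Not at h2
                  exact fun h => he2 ((hm w h2).2 h)
            · exact Or.inl ⟨mem_univ _, Or.inl h1, he⟩
          have hc1 := (card_le_card hsub).trans (card_union_le _ _)
          have hc2 : S1.card + (univ.filter (fun e => en h t e J ∧ κ (h e) = kA)).card = 4 := by
            rw [← hA4]
            unfold ar
            have e1 : (univ.filter (fun e => en h t e J ∧ κ (h e) = kA)) =
                univ.filter (fun e => en h t e A ∧ en h t e J) := by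
              ext e
              simp only [mem_filter, mem_univ, true_and]
              constructor
              · rintro ⟨h1, h2⟩
                exact ⟨⟨(hκ _ h1.1).1 h2, h1.2.mono hAJ⟩, h1⟩
              · rintro ⟨h1, h2⟩
                exact ⟨h2, (hκ _ h2.1).2 h1.1⟩
            rw [e1, hS1, ← filter_filter, ← filter_filter, add_comm]
            exact card_filter_add_card_filter_not _
          have hc3 := hfour kA
          have hc4 : ar h t univ X = (univ.filter (fun e => en h t e X)).card := rfl
          omega
        · have hkB' : Sum.inr (!kA) ∈ X2 := by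
            by_contra h; exact hk ⟨fun h1 => absurd h1 hkA, fun h1 => absurd h1 h⟩
          rw [hnew X2 (!kA) hkB' (by rw [Bool.not_not]; exact hkA)]
          have hm : ∀ w ∈ J, (w ∈ X ↔ w ∉ A) := by
            intro w hw
            rw [hX, mem_pl, hq1 w hw, ← hκ w hw]
            constructor
            · intro h1 h2; rw [h2] at h1; exact hkA h1
            · intro h1
              have : κ w = !kA := by revert h1; cases κ w <;> cases kA <;> simp
              rw [this]; exact hkB'
          have hd : Disjoint (X \ J) J := sdiff_disjoint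
          set T0 : Finset E := univ.filter (fun e => en h t e (X \ J ∪ J)) with hT0
          set R0 : Finset E := univ.filter (fun e => (en h t e J ∧ h e ∈ A) ∧ Out (X \ J) (t e))
            with hR0
          set R1 : Finset E := univ.filter (fun e => en h t e J ∧ h e ∈ A) with hR1
          have hT4 : 4 ≤ T0.card := hD.cut _ (hJ.mono subset_union_right)
          have hR01 : R0 ⊆ R1 := by
            intro e he
            rw [hR0, mem_filter] at he
            rw [hR1, mem_filter]
            exact ⟨mem_univ _, he.2.1⟩
          have hR1c : R1.card = (univ.filter (fun e => en h t e J ∧ κ (h e) = kA)).card := by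
            congr 1
            ext e
            simp only [hR1, mem_filter, mem_univ, true_and]
            exact and_congr_right fun h1 => (hκ _ h1.1).symm
          have hBc : (univ.filter (fun e => en h t e J ∧ κ (h e) = kA)).card +
              (univ.filter (fun e => en h t e J ∧ κ (h e) = !kA)).card = 5 := by
            rw [← five_card hD h5]
            unfold ar
            have e1 : (univ.filter (fun e => en h t e J ∧ κ (h e) = !kA)) =
                univ.filter (fun e => en h t e J ∧ ¬ κ (h e) = kA) := by
              ext e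
              simp only [mem_filter, mem_univ, true_and]
              refine and_congr_right fun _ => ?_
              cases κ (h e) <;> cases kA <;> simp
            rw [e1, ← filter_filter, ← filter_filter]
            exact card_filter_add_card_filter_not _
          have hc3 := hfour kA
          have hc3' := hfour (!kA)
          have hTsub : T0 ⊆ S0 ∪ R0 := by
            intro e he
            rw [hT0, mem_filter] at he
            have he := he.2
            have hOX : Out X (t e) := he.2.mono (by rw [sdiff_union_self_eq_union]; exact subset_union_left)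
            have hOJ : Out J (t e) := he.2.mono subset_union_right
            rw [mem_union, hS0, hR0, mem_filter, mem_filter]
            by_cases h1 : h e ∈ J
            · by_cases h2 : h e ∈ A
              · right
                exact ⟨mem_univ _, ⟨⟨h1, hOJ⟩, h2⟩, he.2.mono subset_union_left⟩
              · left
                exact ⟨mem_univ _, Or.inr hOJ, (hm _ h1).2 h2, hOX⟩
            · left
              refine ⟨mem_univ _, Or.inl h1, ?_, hOX⟩
              have h3 := he.1
              rw [sdiff_union_self_eq_union, mem_union] at h3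
              exact h3.resolve_right h1
          have hc1 := (card_le_card hTsub).trans (card_union_le _ _)
          have hR0c := card_le_card hR01
          rcases hcut (X \ J) hd with h6 | ⟨e0, h6, h7, h8⟩ | ⟨e1, h6, h7⟩
          · have h9 : 5 ≤ T0.card := h6
            omega
          · have hlt : R0.card < R1.card := by
              refine card_lt_card ⟨hR01, fun hsub => ?_⟩
              have h9 : e0 ∈ R1 := by rw [hR1, mem_filter]; exact ⟨mem_univ _, h6, h7⟩
              have h10 := hsub h9
              rw [hR0, mem_filter] at h10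
              exact h8 h10.2.2
            omega
          · rw [mem_sdiff] at h6
            have hte : ∃ w, w ∈ A ∧ t e1 = some w := by
              rcases hte : t e1 with _ | w
              · rw [hte] at h7; exact absurd (out_none A) h7
              · rw [hte, out_some] at h7; push Not at h7; exact ⟨w, h7, rfl⟩
            obtain ⟨w, hwA, hte⟩ := hte
            have hwJ := hAJ hwA
            have he1S : e1 ∈ S0 := by
              rw [hS0, mem_filter]
              refine ⟨mem_univ _, Or.inl h6.2, h6.1, ?_⟩
              rw [hte, out_some]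
              exact fun h => (hm w hwJ).1 h hwA
            have he1T : e1 ∉ T0 := by
              rw [hT0, mem_filter]
              rintro ⟨_, h8⟩
              have h9 := h8.2
              rw [hte, out_some] at h9
              exact h9 (mem_union_right _ hwJ)
            have hTsub' : T0 ⊆ S0.erase e1 ∪ R0 := by
              intro e he
              rcases mem_union.1 (hTsub he) with h8 | h8
              · exact mem_union_left _ (mem_erase.2 ⟨fun h => he1T (h ▸ he), h8⟩)
              · exact mem_union_right _ h8
            have hc5 := (card_le_card hTsub').trans (card_union_le _ _)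
            rw [card_erase_of_mem he1S] at hc5
            have hpos : 0 < S0.card := card_pos.2 ⟨e1, he1S⟩
            omega
    · rintro (e | l)
      · by_cases he : e.1 = p
        · rw [hP2a e he, hP20]
          congr 1
          exact Subtype.ext he.symm
        · rw [hP2b e he, hP2b _ (hPp e he)]
          congr 1
          exact Subtype.ext (hD.inv e.1)
      · fin_cases l
        · show P2 (P2 (Sum.inr 0)) = Sum.inr 0
          rw [hP20, hP2a _ rfl]
        · show P2 (P2 (Sum.inr 1)) = Sum.inr 1
          rw [hP21, hP22]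
        · show P2 (P2 (Sum.inr 2)) = Sum.inr 2
          rw [hP22, hP21]
    · rintro (e | l)
      · by_cases he : e.1 = p
        · rw [hP2a e he]; simp
        · rw [hP2b e he]
          intro h1
          exact hD.ne e.1 (congrArg Subtype.val (Sum.inl_injective h1))
      · fin_cases l
        · show P2 (Sum.inr 0) ≠ Sum.inr 0
          rw [hP20]; simp
        · show P2 (Sum.inr 1) ≠ Sum.inr 1
          rw [hP21]
          intro h1
          exact absurd (Sum.inr_injective h1) (by decide)
        · show P2 (Sum.inr 2) ≠ Sum.inr 2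
          rw [hP22]
          intro h1
          exact absurd (Sum.inr_injective h1) (by decide)
    · rintro (e | l)
      · by_cases he : e.1 = p
        · rw [hP2a e he]
          show (Sum.inr (gH c 0) : {w : W // w ∉ J} ⊕ Bool) = qt J κ (h e.1)
          rw [he, hq1 _ h5.ep.1, kp]
          rfl
        · rw [hP2b e he]
          show qt J κ (h (P e.1)) = qt J κ (h e.1)
          rw [hD.hd]
      · fin_cases l
        · show ouH h t J κ (gH c) (P2 (Sum.inr 0)) = Sum.inr (gH c 0)
          rw [hP20]
          show qt J κ (h p) = _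
          rw [hq1 _ h5.ep.1, kp]
          rfl
        · show ouH h t J κ (gH c) (P2 (Sum.inr 1)) = Sum.inr (gH c 1)
          rw [hP21]; rfl
        · show ouH h t J κ (gH c) (P2 (Sum.inr 2)) = Sum.inr (gH c 2)
          rw [hP22]; rfl
  have hcard : Fintype.card ({w : W // w ∉ J} ⊕ Bool) < n := by
    rw [Fintype.card_sum, Fintype.card_bool]
    have h1 : Fintype.card {w : W // w ∉ J} = Fintype.card W - J.card := by
      rw [Fintype.card_subtype_compl, Fintype.card_coe]
    have h2 : J.card ≤ Fintype.card W := card_le_univ J
    omega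
  obtain ⟨F2, hF2, hpF2⟩ : ∃ F2, Sl (ouH h t J κ (gH c)) (ouT h t J κ (gT c)) P2 F2 ∧
      Sum.inl p2 ∈ F2 := by
    obtain ⟨F2, hF2⟩ := hB _ _ (ouH h t J κ (gH c)) (ouT h t J κ (gT c)) P2 hcard hI
    by_cases hp : Sum.inl p2 ∈ F2
    · exact ⟨F2, hF2, hp⟩
    · exact ⟨F2ᶜ, hF2.compl, by rw [mem_compl]; exact hp⟩
  let F : Finset E := univ.filter fun e => ∃ he : h e ∉ J ∨ Out J (t e), Sum.inl ⟨e, he⟩ ∈ F2
  have hF : ∀ e : {e : E // h e ∉ J ∨ Out J (t e)}, Sum.inl e ∈ F2 ↔ e.1 ∈ F := by
    intro e
    simp only [F, mem_filter, mem_univ, true_and]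
    constructor
    · intro h1; exact ⟨e.2, h1⟩
    · rintro ⟨_, h1⟩; exact h1
  have hFc : ∀ e : {e : E // h e ∉ J ∨ Out J (t e)}, Sum.inl e ∈ F2ᶜ ↔ e.1 ∈ Fᶜ := by
    intro e
    rw [mem_compl, mem_compl, hF]
  refine ⟨F, ⟨?_, ?_, ?_, ?_, ?_, ?_⟩, (hF p2).1 hpF2⟩
  · intro e he
    have hep : e ≠ p := fun h1 => he (h1 ▸ h5.ep.1)
    have h1 := hF2.tr (Sum.inl ⟨e, Or.inl he⟩)
    rw [hP2b _ hep, hF, hF] at h1
    exact h1
  · have h1 := hF2.tr (Sum.inl ⟨a, Or.inr h5.ea.2⟩)
    rw [hP2b _ (Ne.symm h5.pa), hF, hF] at h1
    exact h1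
  · have h1 := hF2.tr (Sum.inl ⟨b, Or.inr h5.eb.2⟩)
    rw [hP2b _ (Ne.symm h5.pb), hF, hF] at h1
    exact h1
  · intro X hX hXJ
    rw [← ar_outer hF (gT_ne c) hXJ]
    exact hF2.l _ (psh_nonempty hX hXJ)
  · intro X hX hXJ
    rw [← ar_outer hFc (gT_ne c) hXJ]
    exact hF2.r _ (psh_nonempty hX hXJ)
  · intro U hU hU2 hJ3 S hS
    by_contra hcon
    push Not at hcon
    obtain ⟨kS, hkS, hSJ⟩ : ∃ kS : Bool, (∀ w ∈ J, (κ w = kS ↔ w ∈ S)) ∧ S ⊆ J := by
      rcases hS with rfl | rfl
      · exact ⟨kA, hκ, hAJ⟩
      · exact ⟨!kA, hkB, sdiff_subset⟩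
    set X2 : Finset ({w : W // w ∉ J} ⊕ Bool) := (U.subtype (· ∉ J)).disjSum {!kS} with hX2
    have hY2 : ar (ouH h t J κ (gH c)) (ouT h t J κ (gT c)) F2 (psh Bool J J) = 3 := by
      rw [ar_outer hF (gT_ne c) (Or.inr subset_rfl)]; exact hJ3
    have hUU : ar (ouH h t J κ (gH c)) (ouT h t J κ (gT c)) F2 (psh Bool J U) = 2 := by
      rw [ar_outer hF (gT_ne c) (Or.inr hU)]; exact hU2
    have hun : X2 ∪ psh Bool J J = psh Bool J U := by
      ext y
      rw [mem_union]
      rcases y with w | k
      · rw [inl_mem_psh, inl_mem_psh, hX2, inl_mem_disjSum, mem_subtype]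
        have := w.2
        tauto
      · rw [inr_mem_psh, inr_mem_psh]
        exact ⟨fun _ => hU, fun _ => Or.inr subset_rfl⟩
    have hint : ∀ y, y ∈ X2 ∩ psh Bool J J ↔ y = Sum.inr (!kS) := by
      intro y
      rw [mem_inter]
      rcases y with w | k
      · rw [inl_mem_psh]
        constructor
        · rintro ⟨_, h1⟩; exact absurd h1 w.2
        · intro h1; exact absurd h1 (by simp)
      · rw [inr_mem_psh, hX2, inr_mem_disjSum, mem_singleton]
        constructor
        · rintro ⟨h1, _⟩; rw [h1]
        · intro h1; exact ⟨Sum.inr_injective h1, subset_rfl⟩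
    have hin2 : ar (ouH h t J κ (gH c)) (ouT h t J κ (gT c)) F2 (X2 ∩ psh Bool J J) ≤ 2 := by
      have hne : (X2 ∩ psh Bool J J).Nonempty := ⟨Sum.inr (!kS), (hint _).2 rfl⟩
      have h1 := hF2.r _ hne
      have h2 := ar_add_compl (h := ouH h t J κ (gH c)) (t := ouT h t J κ (gT c)) F2
        (X2 ∩ psh Bool J J)
      have h3 : ar (ouH h t J κ (gH c)) (ouT h t J κ (gT c)) univ (X2 ∩ psh Bool J J) ≤ 4 := by
        rw [← hI.deg (Sum.inr (!kS))]
        unfold ar
        refine card_le_card ?_
        intro x hx
        rw [mem_filter] at hx ⊢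
        exact ⟨hx.1, (hint _).1 hx.2.1⟩
      omega
    have hcr : F2.filter (fun x => cr (ouH h t J κ (gH c)) (ouT h t J κ (gT c)) x X2
        (psh Bool J J)) = ∅ := by
      rw [filter_eq_empty_iff]
      rintro x hx (⟨h1, h2, h3, h4⟩ | ⟨h1, h2, h3, h4⟩)
      · rcases x with e | l
        · have h1' : qt J κ (h e.1) ∈ X2 := h1
          have h2' : qt J κ (h e.1) ∉ psh Bool J J := h2
          have h3' : Out X2 ((t e.1).map (qt J κ)) := h3
          have h4' : ¬ Out (psh Bool J J) ((t e.1).map (qt J κ)) := h4
          have he : h e.1 ∉ J := by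
            intro he
            rw [hq1 _ he, inr_mem_psh] at h2'
            exact h2' subset_rfl
          rw [hq2 _ he, hX2, inl_mem_disjSum, mem_subtype] at h1'
          rcases hte : t e.1 with _ | u
          · rw [hte] at h4'; simp at h4'
          · rw [hte, Option.map_some, out_some] at h3' h4'
            push Not at h4'
            have hu : u ∈ J := by
              by_contra hu
              rw [hq2 _ hu, inl_mem_psh] at h4'
              exact hu h4'
            rw [hq1 _ hu, hX2, inr_mem_disjSum, mem_singleton] at h3'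
            have hku : κ u = kS := by revert h3'; cases κ u <;> cases kS <;> simp
            exact (hcon e.1 ((hF e).1 hx)).2 (mem_sdiff.2 ⟨h1', he⟩) u ((hkS u hu).1 hku) hte
        · have h2' : Sum.inr (gH c l) ∉ psh Bool J J := h2
          rw [inr_mem_psh] at h2'
          exact h2' subset_rfl
      · rcases x with e | l
        · have h1' : qt J κ (h e.1) ∈ psh Bool J J := h1
          have h2' : qt J κ (h e.1) ∉ X2 := h2
          have h3' : Out (psh Bool J J) ((t e.1).map (qt J κ)) := h3
          have h4' : ¬ Out X2 ((t e.1).map (qt J κ)) := h4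
          have he : h e.1 ∈ J := by
            by_contra he
            rw [hq2 _ he, inl_mem_psh] at h1'
            exact he h1'
          rw [hq1 _ he, hX2, inr_mem_disjSum, mem_singleton] at h2'
          have hke : κ (h e.1) = kS := by revert h2'; cases κ (h e.1) <;> cases kS <;> simp
          rcases hte : t e.1 with _ | u
          · rw [hte] at h4'; simp at h4'
          · rw [hte, Option.map_some, out_some] at h3' h4'
            push Not at h4'
            have hu : u ∉ J := by
              intro hu
              rw [hq1 _ hu, inr_mem_psh] at h3'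
              exact h3' subset_rfl
            rw [hq2 _ hu, hX2, inl_mem_disjSum, mem_subtype] at h4'
            exact (hcon e.1 ((hF e).1 hx)).1 ((hkS _ he).1 hke) u (mem_sdiff.2 ⟨h4', hu⟩) hte
        · have h3' : Out (psh Bool J J) ((gT c l).map Sum.inr) := h3
          unfold gT at h3'
          rw [Option.map_some, out_some, inr_mem_psh] at h3'
          exact h3' subset_rfl
    have hadd := ar_add (h := ouH h t J κ (gH c)) (t := ouT h t J κ (gT c)) F2 X2 (psh Bool J J)
    rw [hun, hcr, card_empty, hY2, hUU] at hadd
    have hX2ne : X2.Nonempty := ⟨Sum.inr (!kS), by rw [hX2, inr_mem_disjSum, mem_singleton]⟩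
    have := hF2.l X2 hX2ne
    omega

end Gadget

end Pool.Agent.E457m
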