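import Pool.Agent.Lib_MP_e457e7_m.Bridge

/-!
Gluing over sets with few entering arcs: arc form.

* `ar h t C X` number of arcs of `C` which enter `X`, `ar_add` the exact submodular identity,
* `Inst` instances of T(2;M), `Sl` solutions, `Below n` all instances with fewer than `n` vertices
  are solvable,
* `InSol J F`, `OutSol J β F`: solutions inside and outside `J`, their existence,
* `no_complete_pair`: if all smaller instances are solvable and `D` is not, then no complete pair
  enters a set `J` with `2 ≤ |J| < n` which is entered by exactly four arcs.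
-/

set_option autoImplicit false
set_option linter.unusedSectionVars false

namespace Pool.Agent.E457m

open Finset

section Arc

variable {W E : Type} [Fintype W] [DecidableEq W] [Fintype E] [DecidableEq E]

/-- the arc `e` enters `X` -/
def en (h : E → W) (t : E → Option W) (e : E) (X : Finset W) : Prop := h e ∈ X ∧ Out X (t e)

instance (h : E → W) (t : E → Option W) (e : E) (X : Finset W) : Decidable (en h t e X) := by
  unfold en; infer_instance

/-- number of arcs of `C` entering `X` -/
def ar (h : E → W) (t : E → Option W) (C : Finset E) (X : Finset W) : ℕ :=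
  (C.filter (fun e => en h t e X)).card

/-- the arc `e` joins `A \ B` and `B \ A` -/
def cr (h : E → W) (t : E → Option W) (e : E) (A B : Finset W) : Prop :=
  (h e ∈ A ∧ h e ∉ B ∧ Out A (t e) ∧ ¬ Out B (t e)) ∨
    (h e ∈ B ∧ h e ∉ A ∧ Out B (t e) ∧ ¬ Out A (t e))

instance (h : E → W) (t : E → Option W) (e : E) (A B : Finset W) : Decidable (cr h t e A B) := by
  unfold cr; infer_instance

variable {h : E → W} {t : E → Option W} {P : E → E}

theorem ar_add (C : Finset E) (A B : Finset W) :
    ar h t C A + ar h t C B = ar h t C (A ∩ B) + ar h t C (A ∪ B) +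
      (C.filter (fun e => cr h t e A B)).card := by
  unfold ar
  simp only [card_filter]
  rw [← sum_add_distrib, ← sum_add_distrib, ← sum_add_distrib]
  refine sum_congr rfl fun e _ => ?_
  simp only [en, cr, mem_inter, mem_union, out_inter, out_union]
  by_cases h1 : h e ∈ A <;> by_cases h2 : h e ∈ B <;> by_cases h3 : Out A (t e) <;>
    by_cases h4 : Out B (t e) <;> simp [h1, h2, h3, h4]

theorem ar_submod (C : Finset E) (A B : Finset W) :
    ar h t C (A ∩ B) + ar h t C (A ∪ B) ≤ ar h t C A + ar h t C B := by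
  have := ar_add (h := h) (t := t) C A B
  omega

theorem ar_add_compl (C : Finset E) (X : Finset W) :
    ar h t C X + ar h t Cᶜ X = ar h t univ X := by
  unfold ar
  rw [← card_union_of_disjoint, ← filter_union, union_compl]
  exact disjoint_filter_filter disjoint_compl_right

theorem ar_congr {C C' : Finset E} {X : Finset W} (hC : ∀ e, en h t e X → (e ∈ C ↔ e ∈ C')) :
    ar h t C X = ar h t C' X := by
  unfold ar
  congr 1
  ext e
  simp only [mem_filter]
  constructor
  · rintro ⟨h1, h2⟩; exact ⟨(hC e h2).1 h1, h2⟩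
  · rintro ⟨h1, h2⟩; exact ⟨(hC e h2).2 h1, h2⟩

/-- instances of T(2;M) -/
structure Inst (h : E → W) (t : E → Option W) (P : E → E) : Prop where
  deg : ∀ w, (univ.filter (fun e => h e = w)).card = 4
  cut : ∀ X : Finset W, X.Nonempty → 4 ≤ ar h t univ X
  inv : ∀ e, P (P e) = e
  ne : ∀ e, P e ≠ e
  hd : ∀ e, h (P e) = h e

/-- solutions -/
structure Sl (h : E → W) (t : E → Option W) (P : E → E) (F : Finset E) : Prop where
  tr : ∀ e, e ∈ F ↔ P e ∉ F
  l : ∀ X : Finset W, X.Nonempty → 2 ≤ ar h t F X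
  r : ∀ X : Finset W, X.Nonempty → 2 ≤ ar h t Fᶜ X

/-- `X` does not cross `J` -/
def UC (J X : Finset W) : Prop := Disjoint X J ∨ J ⊆ X

/-- gluing over a tight set -/
theorem glue_tight {F : Finset E} {J : Finset W}
    (hO : ∀ X : Finset W, X.Nonempty → UC J X → 2 ≤ ar h t F X)
    (hI : ∀ X : Finset W, X.Nonempty → X ⊆ J → 2 ≤ ar h t F X)
    (hJ : ar h t F J ≤ 2) : ∀ X : Finset W, X.Nonempty → 2 ≤ ar h t F X := by
  intro X hX
  by_cases hd : Disjoint X J
  · exact hO X hX (Or.inl hd)
  · have hne : (X ∩ J).Nonempty := by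
      rw [nonempty_iff_ne_empty]; intro h0; exact hd (disjoint_iff_inter_eq_empty.2 h0)
    have h1 := hI (X ∩ J) hne inter_subset_right
    have h2 := hO (X ∪ J) (hX.mono subset_union_left) (Or.inr subset_union_right)
    have h3 := ar_submod (h := h) (t := t) F X J
    omega

/-! ### inside -/

/-- a solution inside `J`, as a subset of `E` of which only the arcs with head in `J` matter -/
structure InSol (h : E → W) (t : E → Option W) (P : E → E) (J : Finset W) (F : Finset E) :
    Prop where
  tr : ∀ e, h e ∈ J → (e ∈ F ↔ P e ∉ F)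
  l : ∀ X : Finset W, X.Nonempty → X ⊆ J → 2 ≤ ar h t F X
  r : ∀ X : Finset W, X.Nonempty → X ⊆ J → 2 ≤ ar h t Fᶜ X

/-- heads in the inner instance -/
def inH (h : E → W) (J : Finset W) (e : {e : E // h e ∈ J}) : {w : W // w ∈ J} := ⟨h e.1, e.2⟩

/-- tails in the inner instance -/
def inT (h : E → W) (t : E → Option W) (J : Finset W) (e : {e : E // h e ∈ J}) :
    Option {w : W // w ∈ J} :=
  (t e.1).bind fun u => if hu : u ∈ J then some ⟨u, hu⟩ else none

theorem out_inT (J : Finset W) (e : {e : E // h e ∈ J}) (X : Finset W) (hX : X ⊆ J) :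
    Out (X.subtype (· ∈ J)) (inT h t J e) ↔ Out X (t e.1) := by
  unfold inT
  rcases t e.1 with _ | u
  · simp
  · simp only [Option.bind_some, out_some]
    by_cases hu : u ∈ J
    · rw [dif_pos hu, out_some, mem_subtype]
    · rw [dif_neg hu]
      simp only [out_none, true_iff]
      exact fun h => hu (hX h)

theorem en_inner (J : Finset W) (e : {e : E // h e ∈ J}) (X : Finset W) (hX : X ⊆ J) :
    en (inH h J) (inT h t J) e (X.subtype (· ∈ J)) ↔ en h t e.1 X := by
  unfold en
  rw [out_inT J e X hX, mem_subtype]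
  rfl

theorem ar_inner {J : Finset W} {F : Finset E} {F1 : Finset {e : E // h e ∈ J}}
    (hF : ∀ e, e ∈ F1 ↔ e.1 ∈ F) {X : Finset W} (hX : X ⊆ J) :
    ar (inH h J) (inT h t J) F1 (X.subtype (· ∈ J)) = ar h t F X := by
  unfold ar
  rw [← card_map (Function.Embedding.subtype _)]
  congr 1
  ext e
  simp only [mem_map, mem_filter, Function.Embedding.coe_subtype]
  constructor
  · rintro ⟨e, ⟨h1, h2⟩, rfl⟩
    exact ⟨(hF e).1 h1, (en_inner J e X hX).1 h2⟩
  · rintro ⟨h1, h2⟩
    exact ⟨⟨e, hX h2.1⟩, ⟨(hF _).2 h1, (en_inner J _ X hX).2 h2⟩, rfl⟩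

theorem subtype_map_sub {J : Finset W} (X' : Finset {w : W // w ∈ J}) :
    X'.map (Function.Embedding.subtype _) ⊆ J := by
  intro w hw
  obtain ⟨w', _, rfl⟩ := mem_map.1 hw
  exact w'.2

theorem subtype_map_eq {J : Finset W} (X' : Finset {w : W // w ∈ J}) :
    (X'.map (Function.Embedding.subtype _)).subtype (· ∈ J) = X' := by
  ext w
  simp

end Arc

/-- all instances with fewer than `n` vertices are solvable -/
def Below (n : ℕ) : Prop :=
  ∀ (W E : Type) [Fintype W] [DecidableEq W] [Fintype E] [DecidableEq E]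
    (h : E → W) (t : E → Option W) (P : E → E), Fintype.card W < n → Inst h t P →
    ∃ F, Sl h t P F

section Arc2

variable {W E : Type} [Fintype W] [DecidableEq W] [Fintype E] [DecidableEq E]
variable {h : E → W} {t : E → Option W} {P : E → E}

/-- inner solutions exist, also after changes of tails which keep the cut condition -/
theorem exists_inSol {n : ℕ} (hB : Below n) (J : Finset W) (hJn : J.card < n)
    (deg : ∀ w ∈ J, (univ.filter (fun e => h e = w)).card = 4)
    (cut : ∀ X : Finset W, X.Nonempty → X ⊆ J → 4 ≤ ar h t univ X)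
    (inv : ∀ e, P (P e) = e) (ne : ∀ e, P e ≠ e) (hd : ∀ e, h (P e) = h e) :
    ∃ F, InSol h t P J F := by
  classical
  let P1 : {e : E // h e ∈ J} → {e : E // h e ∈ J} := fun e => ⟨P e.1, by rw [hd]; exact e.2⟩
  have hI : Inst (inH h J) (inT h t J) P1 := by
    refine ⟨?_, ?_, ?_, ?_, ?_⟩
    · intro w
      rw [← deg w.1 w.2, ← card_map (Function.Embedding.subtype _)]
      congr 1
      ext e
      simp only [mem_map, mem_filter, mem_univ, true_and, Function.Embedding.coe_subtype]
      constructor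
      · rintro ⟨e, he, rfl⟩
        exact congrArg Subtype.val he
      · intro he
        exact ⟨⟨e, by rw [he]; exact w.2⟩, Subtype.ext he, rfl⟩
    · intro X' hX'
      have h1 := cut (X'.map (Function.Embedding.subtype _)) (by simpa using hX')
        (subtype_map_sub X')
      rw [← ar_inner (F1 := univ) (fun e => by simp) (subtype_map_sub X'), subtype_map_eq] at h1
      exact h1
    · intro e; exact Subtype.ext (inv e.1)
    · intro e he; exact ne e.1 (congrArg Subtype.val he)
    · intro e; exact Subtype.ext (hd e.1)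
  obtain ⟨F1, hF1⟩ := hB _ _ (inH h J) (inT h t J) P1 (by simpa using hJn) hI
  refine ⟨F1.map (Function.Embedding.subtype _), ?_, ?_, ?_⟩
  · intro e he
    have h1 := hF1.tr ⟨e, he⟩
    have h2 : ∀ (e : E) (he : h e ∈ J), e ∈ F1.map (Function.Embedding.subtype _) ↔
        (⟨e, he⟩ : {e : E // h e ∈ J}) ∈ F1 := by
      intro e he
      simp only [mem_map, Function.Embedding.coe_subtype]
      constructor
      · rintro ⟨e', h1, rfl⟩; exact h1
      · intro h1; exact ⟨_, h1, rfl⟩
    rw [h2 e he, h2 (P e) (by rw [hd]; exact he)]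
    exact h1
  · intro X hX hXJ
    rw [← ar_inner (F1 := F1) (fun e => by simp [e.2]) hXJ]
    refine hF1.l _ ?_
    obtain ⟨w, hw⟩ := hX
    exact ⟨⟨w, hXJ hw⟩, by rw [mem_subtype]; exact hw⟩
  · intro X hX hXJ
    rw [← ar_inner (F1 := F1ᶜ) (fun e => by simp [e.2]) hXJ]
    refine hF1.r _ ?_
    obtain ⟨w, hw⟩ := hX
    exact ⟨⟨w, hXJ hw⟩, by rw [mem_subtype]; exact hw⟩

theorem InSol.compl {J : Finset W} {F : Finset E} (hF : InSol h t P J F) : InSol h t P J Fᶜ := by
  refine ⟨fun e he => ?_, hF.r, ?_⟩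
  · have := hF.tr e he
    simp only [mem_compl]
    tauto
  · rw [compl_compl]; exact hF.l

/-- swapping two parallel arcs from outside -/
theorem InSol.swap {J : Finset W} {F : Finset E} (hF : InSol h t P J F) (inv : ∀ e, P (P e) = e)
    (hd : ∀ e, h (P e) = h e)
    {x : E} (hx : en h t x J) (hPx : en h t (P x) J) :
    InSol h t P J (F.map (Equiv.swap x (P x)).toEmbedding) := by
  have hmem : ∀ e, e ∈ F.map (Equiv.swap x (P x)).toEmbedding ↔ Equiv.swap x (P x) e ∈ F := by
    intro e
    rw [mem_map_equiv, Equiv.symm_swap]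
  have hen : ∀ X : Finset W, X ⊆ J → ∀ e, en h t (Equiv.swap x (P x) e) X ↔ en h t e X := by
    intro X hX e
    have h1 : en h t x X ↔ h x ∈ X := ⟨fun h => h.1, fun h => ⟨h, hx.2.mono hX⟩⟩
    have h2 : en h t (P x) X ↔ h x ∈ X := ⟨fun h => by rw [← hd]; exact h.1,
      fun h => ⟨by rw [hd]; exact h, hPx.2.mono hX⟩⟩
    by_cases e1 : e = x
    · subst e1; rw [Equiv.swap_apply_left, h1, h2]
    · by_cases e2 : e = P x
      · subst e2; rw [Equiv.swap_apply_right, h1, h2]
      · rw [Equiv.swap_apply_of_ne_of_ne e1 e2]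
  have har : ∀ (C : Finset E) (X : Finset W), X ⊆ J →
      ar h t (C.map (Equiv.swap x (P x)).toEmbedding) X = ar h t C X := by
    intro C X hX
    unfold ar
    rw [filter_map, card_map]
    congr 1
    ext e
    simp only [mem_filter, Function.comp, Equiv.coe_toEmbedding, hen X hX]
  have hcompl : (F.map (Equiv.swap x (P x)).toEmbedding)ᶜ =
      Fᶜ.map (Equiv.swap x (P x)).toEmbedding := by
    ext e
    rw [mem_compl, hmem, mem_map_equiv, Equiv.symm_swap, mem_compl]
  refine ⟨fun e he => ?_, fun X hX hXJ => ?_, fun X hX hXJ => ?_⟩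
  · rw [hmem, hmem]
    have hP : P (Equiv.swap x (P x) e) = Equiv.swap x (P x) (P e) := by
      by_cases e1 : e = x
      · subst e1
        rw [Equiv.swap_apply_left, Equiv.swap_apply_right, inv]
      · by_cases e2 : e = P x
        · subst e2
          rw [Equiv.swap_apply_right, inv, Equiv.swap_apply_left]
        · rw [Equiv.swap_apply_of_ne_of_ne e1 e2, Equiv.swap_apply_of_ne_of_ne]
          · intro h1; exact e2 (by rw [← h1, inv])
          · intro h1; exact e1 (by rw [← inv e, h1, inv])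
    have hh : h (Equiv.swap x (P x) e) = h e := by
      by_cases e1 : e = x
      · subst e1; rw [Equiv.swap_apply_left, hd]
      · by_cases e2 : e = P x
        · subst e2; rw [Equiv.swap_apply_right, hd]
        · rw [Equiv.swap_apply_of_ne_of_ne e1 e2]
    rw [← hP]
    exact hF.tr _ (by rw [hh]; exact he)
  · rw [har F X hXJ]; exact hF.l X hX hXJ
  · rw [hcompl, har Fᶜ X hXJ]; exact hF.r X hX hXJ

/-! ### outside -/

/-- a solution outside `J` (`J` contracted, pairing `β` at the new vertex), as a subset of `E` of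
which only the arcs not inside `J` matter -/
structure OutSol (h : E → W) (t : E → Option W) (P : E → E) (J : Finset W) (β : E → E)
    (F : Finset E) : Prop where
  tr : ∀ e, h e ∉ J → (e ∈ F ↔ P e ∉ F)
  trb : ∀ e, en h t e J → (e ∈ F ↔ β e ∉ F)
  l : ∀ X : Finset W, X.Nonempty → UC J X → 2 ≤ ar h t F X
  r : ∀ X : Finset W, X.Nonempty → UC J X → 2 ≤ ar h t Fᶜ X

/-- the quotient map -/
def qt {K : Type} (J : Finset W) (κ : W → K) (w : W) : {w : W // w ∉ J} ⊕ K :=
  if hw : w ∈ J then Sum.inr (κ w) else Sum.inl ⟨w, hw⟩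

/-- heads in the outer instance -/
def ouH {K L : Type} (h : E → W) (t : E → Option W) (J : Finset W) (κ : W → K) (hL : L → K) :
    {e : E // h e ∉ J ∨ Out J (t e)} ⊕ L → {w : W // w ∉ J} ⊕ K
  | Sum.inl e => qt J κ (h e.1)
  | Sum.inr l => Sum.inr (hL l)

/-- tails in the outer instance -/
def ouT {K L : Type} (h : E → W) (t : E → Option W) (J : Finset W) (κ : W → K)
    (tL : L → Option K) :
    {e : E // h e ∉ J ∨ Out J (t e)} ⊕ L → Option ({w : W // w ∉ J} ⊕ K)
  | Sum.inl e => (t e.1).map (qt J κ)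
  | Sum.inr l => (tL l).map Sum.inr

/-- preimage of a set -/
def pl {K : Type} [DecidableEq K] (J : Finset W) (κ : W → K)
    (X : Finset ({w : W // w ∉ J} ⊕ K)) : Finset W := univ.filter fun w => qt J κ w ∈ X

theorem mem_pl {K : Type} [DecidableEq K] {J : Finset W} {κ : W → K}
    {X : Finset ({w : W // w ∉ J} ⊕ K)} {w : W} : w ∈ pl J κ X ↔ qt J κ w ∈ X := by
  simp [pl]

theorem out_ouT {K L : Type} [DecidableEq K] {J : Finset W} {κ : W → K} (tL : L → Option K)
    (X : Finset ({w : W // w ∉ J} ⊕ K)) (e : {e : E // h e ∉ J ∨ Out J (t e)}) :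
    Out X (ouT h t J κ tL (Sum.inl e)) ↔ Out (pl J κ X) (t e.1) := by
  show Out X ((t e.1).map (qt J κ)) ↔ _
  rcases t e.1 with _ | u
  · simp
  · simp only [Option.map_some, out_some, mem_pl]

theorem en_outer {K L : Type} [DecidableEq K] {J : Finset W} {κ : W → K} (hL : L → K)
    (tL : L → Option K) (X : Finset ({w : W // w ∉ J} ⊕ K))
    (e : {e : E // h e ∉ J ∨ Out J (t e)}) :
    en (ouH h t J κ hL) (ouT h t J κ tL) (Sum.inl e) X ↔ en h t e.1 (pl J κ X) := by
  unfold en
  rw [out_ouT, mem_pl]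
  rfl

/-- entering arcs of the outer instance -/
theorem ar_outer_gen {K L : Type} [Fintype K] [DecidableEq K] [Fintype L] [DecidableEq L]
    {J : Finset W} {κ : W → K} {hL : L → K} {tL : L → Option K}
    {F2 : Finset ({e : E // h e ∉ J ∨ Out J (t e)} ⊕ L)} {F : Finset E}
    (hF : ∀ e, Sum.inl e ∈ F2 ↔ e.1 ∈ F) (X : Finset ({w : W // w ∉ J} ⊕ K)) :
    ar (ouH h t J κ hL) (ouT h t J κ tL) F2 X =
      (F.filter (fun e => (h e ∉ J ∨ Out J (t e)) ∧ en h t e (pl J κ X))).card +
      (univ.filter (fun l : L => Sum.inr l ∈ F2 ∧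
        en (ouH h t J κ hL) (ouT h t J κ tL) (Sum.inr l) X)).card := by
  classical
  unfold ar
  have e1 : (F2.filter (fun x => en (ouH h t J κ hL) (ouT h t J κ tL) x X)).card =
      ∑ x, if (x ∈ F2 ∧ en (ouH h t J κ hL) (ouT h t J κ tL) x X) then 1 else 0 := by
    rw [← card_filter]
    congr 1
    ext x
    simp
  rw [e1, Fintype.sum_sum_type]
  congr 1
  · rw [← card_filter, ← card_map (Function.Embedding.subtype _)]
    congr 1
    ext e
    simp only [mem_map, mem_filter, mem_univ, true_and, Function.Embedding.coe_subtype]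
    constructor
    · rintro ⟨e, ⟨h1, h2⟩, rfl⟩
      exact ⟨(hF e).1 h1, e.2, (en_outer hL tL X e).1 h2⟩
    · rintro ⟨h1, h2, h3⟩
      exact ⟨⟨e, h2⟩, ⟨(hF _).2 h1, (en_outer hL tL X _).2 h3⟩, rfl⟩
  · rw [← card_filter]

/-- cardinality of a filter on a sum -/
theorem card_filter_sum {S L : Type} [Fintype S] [Fintype L] (Q : S ⊕ L → Prop)
    [DecidablePred Q] :
    (univ.filter Q).card = (univ.filter (fun e => Q (Sum.inl e))).card +
      (univ.filter (fun l => Q (Sum.inr l))).card := by
  simp only [card_filter, Fintype.sum_sum_type]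

/-- cardinality of a filter on a subtype -/
theorem card_filter_sub {p : E → Prop} [DecidablePred p] (Q : {e // p e} → Prop) [DecidablePred Q]
    (R : E → Prop) [DecidablePred R] (hQ : ∀ e, Q e → R e.1)
    (hR : ∀ e, R e → ∃ he : p e, Q ⟨e, he⟩) :
    (univ.filter Q).card = (univ.filter R).card := by
  rw [← card_map (Function.Embedding.subtype _)]
  congr 1
  ext e
  simp only [mem_map, mem_filter, mem_univ, true_and, Function.Embedding.coe_subtype]
  constructor
  · rintro ⟨e, h1, rfl⟩; exact hQ e h1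
  · intro h1
    obtain ⟨he, h2⟩ := hR e h1
    exact ⟨⟨e, he⟩, h2, rfl⟩

/-- push forward of a set which does not cross `J` -/
def psh (K : Type) [Fintype K] (J : Finset W) (X : Finset W) :
    Finset ({w : W // w ∉ J} ⊕ K) :=
  (X.subtype (· ∉ J)).disjSum (if J ⊆ X then univ else ∅)

theorem inl_mem_psh {K : Type} [Fintype K] {J X : Finset W} {w : {w : W // w ∉ J}} :
    Sum.inl w ∈ psh K J X ↔ w.1 ∈ X := by
  unfold psh
  rw [inl_mem_disjSum, mem_subtype]

theorem inr_mem_psh {K : Type} [Fintype K] {J X : Finset W} {k : K} :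
    Sum.inr k ∈ psh K J X ↔ J ⊆ X := by
  unfold psh
  rw [inr_mem_disjSum]
  split_ifs with h
  · simp [h]
  · simp [h]

theorem pl_psh {K : Type} [Fintype K] [DecidableEq K] {J : Finset W} {κ : W → K} {X : Finset W}
    (hX : UC J X) : pl J κ (psh K J X) = X := by
  ext w
  rw [mem_pl]
  unfold qt
  by_cases hw : w ∈ J
  · rw [dif_pos hw, inr_mem_psh]
    rcases hX with hX | hX
    · constructor
      · intro h1; exact absurd hw (disjoint_left.1 hX (h1 hw))
      · intro h1; exact absurd hw (disjoint_left.1 hX h1)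
    · exact ⟨fun _ => hX hw, fun _ => hX⟩
  · rw [dif_neg hw, inl_mem_psh]

/-- entering arcs of a set which does not cross `J`, outer instance -/
theorem ar_outer {K L : Type} [Fintype K] [DecidableEq K] [Fintype L] [DecidableEq L]
    {J : Finset W} {κ : W → K} {hL : L → K} {tL : L → Option K}
    {F2 : Finset ({e : E // h e ∉ J ∨ Out J (t e)} ⊕ L)} {F : Finset E}
    (hF : ∀ e, Sum.inl e ∈ F2 ↔ e.1 ∈ F) (htL : ∀ l, tL l ≠ none) {X : Finset W} (hX : UC J X) :
    ar (ouH h t J κ hL) (ouT h t J κ tL) F2 (psh K J X) = ar h t F X := by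
  rw [ar_outer_gen hF, pl_psh hX]
  have h0 : (univ.filter (fun l : L => Sum.inr l ∈ F2 ∧
        en (ouH h t J κ hL) (ouT h t J κ tL) (Sum.inr l) (psh K J X))) = ∅ := by
    rw [filter_eq_empty_iff]
    rintro l - ⟨_, h1, h2⟩
    obtain ⟨k, hk⟩ := Option.ne_none_iff_exists'.1 (htL l)
    have h3 : Sum.inr (hL l) ∈ psh K J X := h1
    have h4 : Out (psh K J X) ((tL l).map Sum.inr) := h2
    rw [hk, Option.map_some, out_some] at h4
    rw [inr_mem_psh] at h3 h4
    exact h4 h3
  rw [h0, card_empty, add_zero]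
  unfold ar
  congr 1
  ext e
  simp only [mem_filter]
  constructor
  · rintro ⟨h1, _, h2⟩; exact ⟨h1, h2⟩
  · rintro ⟨h1, h2⟩
    refine ⟨h1, ?_, h2⟩
    rcases hX with hX | hX
    · exact Or.inl (disjoint_left.1 hX h2.1)
    · exact Or.inr (h2.2.mono hX)

theorem psh_nonempty {K : Type} [Fintype K] [Nonempty K] {J X : Finset W} (hX : X.Nonempty)
    (hXJ : UC J X) : (psh K J X).Nonempty := by
  rcases hXJ with hd | hs
  · obtain ⟨w, hw⟩ := hX
    exact ⟨Sum.inl ⟨w, disjoint_left.1 hd hw⟩, by rw [inl_mem_psh]; exact hw⟩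
  · obtain ⟨k⟩ := ‹Nonempty K›
    exact ⟨Sum.inr k, by rw [inr_mem_psh]; exact hs⟩

/-- outer solutions for the contraction of `J` exist -/
theorem exists_outSol {n : ℕ} (hB : Below n) (hD : Inst h t P) (J : Finset W)
    (hJn : Fintype.card W + 1 < n + J.card) (hJ : J.Nonempty) (hJ4 : ar h t univ J = 4)
    (β : E → E) (hβ : ∀ e, en h t e J → en h t (β e) J) (hβ2 : ∀ e, en h t e J → β (β e) = e)
    (hβ3 : ∀ e, en h t e J → β e ≠ e) :
    ∃ F, OutSol h t P J β F := by
  classical
  let κ : W → Unit := fun _ => ()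
  let tL : Empty → Option Unit := fun l => l.elim
  let hL : Empty → Unit := fun l => l.elim
  have hbd : ∀ e : {e : E // h e ∉ J ∨ Out J (t e)}, h e.1 ∈ J → en h t e.1 J := by
    intro e he
    exact ⟨he, e.2.resolve_left (fun h => h he)⟩
  let P2 : {e : E // h e ∉ J ∨ Out J (t e)} ⊕ Empty → {e : E // h e ∉ J ∨ Out J (t e)} ⊕ Empty :=
    Sum.elim (fun e => Sum.inl (if he : h e.1 ∈ J then ⟨β e.1, Or.inr (hβ e.1 (hbd e he)).2⟩
      else ⟨P e.1, Or.inl (by rw [hD.hd]; exact he)⟩)) (fun l => l.elim)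
  have hP2a : ∀ e : {e : E // h e ∉ J ∨ Out J (t e)}, ∀ he : h e.1 ∈ J,
      P2 (Sum.inl e) = Sum.inl ⟨β e.1, Or.inr (hβ e.1 (hbd e he)).2⟩ := by
    intro e he
    simp only [P2, Sum.elim_inl, dif_pos he]
  have hP2b : ∀ e : {e : E // h e ∉ J ∨ Out J (t e)}, ∀ he : h e.1 ∉ J,
      P2 (Sum.inl e) = Sum.inl ⟨P e.1, Or.inl (by rw [hD.hd]; exact he)⟩ := by
    intro e he
    simp only [P2, Sum.elim_inl, dif_neg he]
  have hq1 : ∀ w, ∀ hw : w ∈ J, qt J κ w = Sum.inr () := by
    intro w hw; unfold qt; rw [dif_pos hw]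
  have hq2 : ∀ w, ∀ hw : w ∉ J, qt J κ w = Sum.inl ⟨w, hw⟩ := by
    intro w hw; unfold qt; rw [dif_neg hw]
  have hUC : ∀ X : Finset ({w : W // w ∉ J} ⊕ Unit), UC J (pl J κ X) ∧ psh Unit J (pl J κ X) = X := by
    intro X
    by_cases hX : Sum.inr () ∈ X
    · have hs : J ⊆ pl J κ X := by
        intro w hw
        rw [mem_pl, hq1 w hw]; exact hX
      refine ⟨Or.inr hs, ?_⟩
      ext y
      rcases y with w | u
      · rw [inl_mem_psh, mem_pl, hq2 w.1 w.2]
      · rw [inr_mem_psh]
        exact ⟨fun _ => hX, fun _ => hs⟩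
    · have hs : Disjoint (pl J κ X) J := by
        rw [disjoint_right]
        intro w hw
        rw [mem_pl, hq1 w hw]; exact hX
      refine ⟨Or.inl hs, ?_⟩
      ext y
      rcases y with w | u
      · rw [inl_mem_psh, mem_pl, hq2 w.1 w.2]
      · rw [inr_mem_psh]
        constructor
        · intro h1
          obtain ⟨w, hw⟩ := hJ
          exact absurd hw (disjoint_left.1 hs (h1 hw))
        · intro h1; exact absurd h1 hX
  have htL : ∀ l : Empty, tL l ≠ none := fun l => l.elim
  have hI : Inst (ouH h t J κ hL) (ouT h t J κ tL) P2 := by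
    refine ⟨?_, ?_, ?_, ?_, ?_⟩
    · intro w
      rw [card_filter_sum]
      have h0 : (univ.filter (fun l : Empty => ouH h t J κ hL (Sum.inr l) = w)).card = 0 := by
        rw [card_eq_zero]; ext l; exact l.elim
      rw [h0, add_zero]
      rcases w with w | u
      · rw [← hD.deg w.1]
        refine card_filter_sub _ _ ?_ ?_
        · intro e he
          by_contra hne
          have he' : qt J κ (h e.1) = Sum.inl w := he
          by_cases hw : h e.1 ∈ J
          · rw [hq1 _ hw] at he'; exact absurd he' (by simp)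
          · rw [hq2 _ hw] at he'
            exact hne (congrArg Subtype.val (Sum.inl_injective he'))
        · intro e he
          have hw : h e ∉ J := by rw [he]; exact w.2
          refine ⟨Or.inl hw, ?_⟩
          show qt J κ (h e) = Sum.inl w
          rw [hq2 _ hw]
          congr 1
          exact Subtype.ext he
      · rw [← hJ4]
        unfold ar
        refine card_filter_sub _ _ ?_ ?_
        · intro e he
          have he' : qt J κ (h e.1) = Sum.inr u := he
          by_cases hw : h e.1 ∈ J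
          · exact hbd e hw
          · rw [hq2 _ hw] at he'; exact absurd he' (by simp)
        · intro e he
          exact ⟨Or.inr he.2, hq1 _ he.1⟩
    · intro X hX
      obtain ⟨h1, h2⟩ := hUC X
      rw [← h2, ar_outer (F := univ) (fun e => by simp) htL h1]
      refine hD.cut _ ?_
      obtain ⟨y, hy⟩ := hX
      rcases y with w | u
      · exact ⟨w.1, by rw [mem_pl, hq2 w.1 w.2]; exact hy⟩
      · obtain ⟨w, hw⟩ := hJ
        exact ⟨w, by rw [mem_pl, hq1 w hw]; exact hy⟩
    · rintro (e | l)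
      · by_cases he : h e.1 ∈ J
        · rw [hP2a e he, hP2a _ (hβ e.1 (hbd e he)).1]
          congr 1
          exact Subtype.ext (hβ2 e.1 (hbd e he))
        · rw [hP2b e he, hP2b _ (by show h (P e.1) ∉ J; rw [hD.hd]; exact he)]
          congr 1
          exact Subtype.ext (hD.inv e.1)
      · exact l.elim
    · rintro (e | l)
      · by_cases he : h e.1 ∈ J
        · rw [hP2a e he]
          intro h1
          exact hβ3 e.1 (hbd e he) (congrArg Subtype.val (Sum.inl_injective h1))
        · rw [hP2b e he]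
          intro h1
          exact hD.ne e.1 (congrArg Subtype.val (Sum.inl_injective h1))
      · exact l.elim
    · rintro (e | l)
      · by_cases he : h e.1 ∈ J
        · rw [hP2a e he]
          show qt J κ (h (β e.1)) = qt J κ (h e.1)
          rw [hq1 _ he, hq1 _ (hβ e.1 (hbd e he)).1]
        · rw [hP2b e he]
          show qt J κ (h (P e.1)) = qt J κ (h e.1)
          rw [hD.hd]
      · exact l.elim
  have hcard : Fintype.card ({w : W // w ∉ J} ⊕ Unit) < n := by
    rw [Fintype.card_sum, Fintype.card_unit]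
    have h1 : Fintype.card {w : W // w ∉ J} = Fintype.card W - J.card := by
      rw [Fintype.card_subtype_compl, Fintype.card_coe]
    have h2 : J.card ≤ Fintype.card W := card_le_univ J
    omega
  obtain ⟨F2, hF2⟩ := hB _ _ (ouH h t J κ hL) (ouT h t J κ tL) P2 hcard hI
  let F : Finset E := univ.filter fun e => ∃ he : h e ∉ J ∨ Out J (t e), Sum.inl ⟨e, he⟩ ∈ F2
  have hF : ∀ e : {e : E // h e ∉ J ∨ Out J (t e)}, Sum.inl e ∈ F2 ↔ e.1 ∈ F := by
    intro e
    simp only [F, mem_filter, mem_univ, true_and]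
    constructor
    · intro h1; exact ⟨e.2, h1⟩
    · rintro ⟨_, h1⟩; exact h1
  have hFc : ∀ e : {e : E // h e ∉ J ∨ Out J (t e)}, Sum.inl e ∈ F2ᶜ ↔ e.1 ∈ Fᶜ := by
    intro e
    rw [mem_compl, mem_compl, hF]
  refine ⟨F, ?_, ?_, ?_, ?_⟩
  · intro e he
    have h1 := hF2.tr (Sum.inl ⟨e, Or.inl he⟩)
    rw [hP2b _ he, hF, hF] at h1
    exact h1
  · intro e he
    have h1 := hF2.tr (Sum.inl ⟨e, Or.inr he.2⟩)
    rw [hP2a _ he.1, hF, hF] at h1
    exact h1
  · intro X hX hXJ
    rw [← ar_outer hF htL hXJ]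
    exact hF2.l _ (psh_nonempty hX hXJ)
  · intro X hX hXJ
    rw [← ar_outer hFc htL hXJ]
    exact hF2.r _ (psh_nonempty hX hXJ)

/-- gluing an inner and an outer solution over a set with four entering arcs -/
theorem glue4 (hD : Inst h t P) {J : Finset W} (hJ : J.Nonempty) (hJ4 : ar h t univ J = 4)
    {β : E → E} {F1 F2 : Finset E} (h1 : InSol h t P J F1) (h2 : OutSol h t P J β F2)
    (hag : ∀ e, en h t e J → (e ∈ F1 ↔ e ∈ F2)) : ∃ F, Sl h t P F := by
  classical
  let F : Finset E := univ.filter fun e => if h e ∈ J then e ∈ F1 else e ∈ F2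
  have hin : ∀ e, h e ∈ J → (e ∈ F ↔ e ∈ F1) := by
    intro e he; simp only [F, mem_filter, mem_univ, true_and, if_pos he]
  have hout : ∀ e, h e ∉ J → (e ∈ F ↔ e ∈ F2) := by
    intro e he; simp only [F, mem_filter, mem_univ, true_and, if_neg he]
  have hI : ∀ X : Finset W, X ⊆ J → ar h t F X = ar h t F1 X := by
    intro X hX
    exact ar_congr fun e he => hin e (hX he.1)
  have hIc : ∀ X : Finset W, X ⊆ J → ar h t Fᶜ X = ar h t F1ᶜ X := by
    intro X hX
    refine ar_congr fun e he => ?_
    rw [mem_compl, mem_compl, hin e (hX he.1)]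
  have hUC : ∀ X : Finset W, UC J X → ∀ e, en h t e X → (e ∈ F ↔ e ∈ F2) := by
    intro X hX e he
    by_cases hh : h e ∈ J
    · rw [hin e hh]
      refine hag e ⟨hh, ?_⟩
      rcases hX with hX | hX
      · exact absurd hh (disjoint_left.1 hX he.1)
      · exact he.2.mono hX
    · exact hout e hh
  have hO : ∀ X : Finset W, UC J X → ar h t F X = ar h t F2 X := by
    intro X hX
    exact ar_congr (hUC X hX)
  have hOc : ∀ X : Finset W, UC J X → ar h t Fᶜ X = ar h t F2ᶜ X := by
    intro X hX
    refine ar_congr fun e he => ?_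
    rw [mem_compl, mem_compl, hUC X hX e he]
  have hsum := ar_add_compl (h := h) (t := t) F J
  have hl := h1.l J hJ subset_rfl
  have hr := h1.r J hJ subset_rfl
  rw [← hI J subset_rfl] at hl
  rw [← hIc J subset_rfl] at hr
  refine ⟨F, ?_, ?_, ?_⟩
  · intro e
    by_cases he : h e ∈ J
    · rw [hin e he, hin (P e) (by rw [hD.hd]; exact he)]
      exact h1.tr e he
    · rw [hout e he, hout (P e) (by rw [hD.hd]; exact he)]
      exact h2.tr e he
  · refine glue_tight (J := J) (fun X hX hXJ => ?_) (fun X hX hXJ => ?_) (by omega)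
    · rw [hO X hXJ]; exact h2.l X hX hXJ
    · rw [hI X hXJ]; exact h1.l X hX hXJ
  · refine glue_tight (J := J) (fun X hX hXJ => ?_) (fun X hX hXJ => ?_) (by omega)
    · rw [hOc X hXJ]; exact h2.r X hX hXJ
    · rw [hIc X hXJ]; exact h1.r X hX hXJ

/-- **no complete pair enters a 4-set** in a minimal counterexample -/
theorem no_complete_pair (hB : Below (Fintype.card W)) (hD : Inst h t P)
    (hno : ¬ ∃ F, Sl h t P F) {J : Finset W} (hJ2 : 2 ≤ J.card) (hJn : J.card < Fintype.card W)
    (hJ4 : ar h t univ J = 4) (x : E) (hx : en h t x J) : ¬ en h t (P x) J := by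
  classical
  intro hPx
  have hJ : J.Nonempty := by rw [← card_pos]; omega
  -- the other two boundary arcs
  set B : Finset E := univ.filter (fun e => en h t e J) with hBdef
  have hB4 : B.card = 4 := hJ4
  have hmB : ∀ e, e ∈ B ↔ en h t e J := by intro e; simp [hBdef]
  have hxP : x ≠ P x := fun h => hD.ne x h.symm
  have hc2 : ((B.erase x).erase (P x)).card = 2 := by
    rw [card_erase_of_mem, card_erase_of_mem, hB4]
    · exact (hmB x).2 hx
    · rw [mem_erase]; exact ⟨fun h => hD.ne x h, (hmB _).2 hPx⟩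
  obtain ⟨y, z, hyz, hyzB⟩ := card_eq_two.1 hc2
  have hyB : y ∈ (B.erase x).erase (P x) := by rw [hyzB]; simp
  have hzB : z ∈ (B.erase x).erase (P x) := by rw [hyzB]; simp
  rw [mem_erase, mem_erase] at hyB hzB
  obtain ⟨hyP, hyx, hyB⟩ := hyB
  obtain ⟨hzP, hzx, hzB⟩ := hzB
  have hBall : ∀ e, en h t e J → e = x ∨ e = P x ∨ e = y ∨ e = z := by
    intro e he
    by_cases e1 : e = x
    · exact Or.inl e1
    by_cases e2 : e = P x
    · exact Or.inr (Or.inl e2)
    have : e ∈ (B.erase x).erase (P x) := by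
      rw [mem_erase, mem_erase]; exact ⟨e2, e1, (hmB e).2 he⟩
    rw [hyzB] at this
    simp only [mem_insert, mem_singleton] at this
    exact Or.inr (Or.inr this)
  have hBeq : B = {x, P x, y, z} := by
    ext e
    simp only [mem_insert, mem_singleton]
    constructor
    · intro he; exact hBall e ((hmB e).1 he)
    · rintro (rfl | rfl | rfl | rfl)
      · exact (hmB _).2 hx
      · exact (hmB _).2 hPx
      · exact hyB
      · exact hzB
  let β : E → E := fun e => if e = y then z else if e = z then y else P e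
  have hβy : β y = z := by simp [β]
  have hβz : β z = y := by simp [β, hyz.symm]
  have hβx : β x = P x := by simp only [β]; rw [if_neg (Ne.symm hyx), if_neg (Ne.symm hzx)]
  have hβP : β (P x) = x := by
    simp only [β]; rw [if_neg (Ne.symm hyP), if_neg (Ne.symm hzP), hD.inv]
  obtain ⟨F2, hF2⟩ := exists_outSol hB hD J (by omega) hJ hJ4 β
    (by
      intro e he
      rcases hBall e he with rfl | rfl | rfl | rfl
      · rw [hβx]; exact hPx
      · rw [hβP]; exact hx
      · rw [hβy]; exact (hmB _).1 hzB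
      · rw [hβz]; exact (hmB _).1 hyB)
    (by
      intro e he
      rcases hBall e he with rfl | rfl | rfl | rfl
      · rw [hβx, hβP]
      · rw [hβP, hβx]
      · rw [hβy, hβz]
      · rw [hβz, hβy])
    (by
      intro e he
      rcases hBall e he with rfl | rfl | rfl | rfl
      · rw [hβx]; exact hD.ne _
      · rw [hβP]; exact hxP
      · rw [hβy]; exact hyz.symm
      · rw [hβz]; exact hyz)
  obtain ⟨F1, hF1⟩ := exists_inSol hB J hJn (fun w _ => hD.deg w)
    (fun X hX _ => hD.cut X hX) hD.inv hD.ne hD.hd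
  -- counting on the boundary
  have hcount : ∀ F : Finset E, InSol h t P J F →
      (x ∈ F ↔ P x ∉ F) ∧ (y ∈ F ↔ z ∉ F) := by
    intro F hF
    have t1 := hF.tr x hx.1
    refine ⟨t1, ?_⟩
    have hs := ar_add_compl (h := h) (t := t) F J
    have h1 := hF.l J hJ subset_rfl
    have h2 := hF.r J hJ subset_rfl
    have h3 : ar h t F J = 2 := by omega
    have h4 : ar h t F J = ∑ e ∈ B, if e ∈ F then 1 else 0 := by
      unfold ar
      rw [← card_filter, hBdef, filter_filter]
      congr 1
      ext e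
      simp [and_comm]
    rw [h4, hBeq, sum_insert, sum_insert, sum_insert, sum_singleton] at h3
    · by_cases c1 : x ∈ F
      · have c2 : P x ∉ F := t1.1 c1
        by_cases c3 : y ∈ F <;> by_cases c4 : z ∈ F <;> simp [c1, c2, c3, c4] at h3 ⊢
      · have c2 : P x ∈ F := by by_contra c2; exact c1 (t1.2 c2)
        by_cases c3 : y ∈ F <;> by_cases c4 : z ∈ F <;> simp [c1, c2, c3, c4] at h3 ⊢
    · simpa using hyz
    · simp only [mem_insert, mem_singleton, not_or]; exact ⟨Ne.symm hyP, Ne.symm hzP⟩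
    · simp only [mem_insert, mem_singleton, not_or]; exact ⟨hxP, Ne.symm hyx, Ne.symm hzx⟩
  -- adjust the colour of `y`
  have hstep : ∃ F : Finset E, InSol h t P J F ∧ (y ∈ F ↔ y ∈ F2) := by
    by_cases hy : (y ∈ F1 ↔ y ∈ F2)
    · exact ⟨F1, hF1, hy⟩
    · refine ⟨F1ᶜ, hF1.compl, ?_⟩
      rw [mem_compl]
      tauto
  obtain ⟨F3, hF3, hy3⟩ := hstep
  -- adjust the colour of `x`
  have hstep2 : ∃ F : Finset E, InSol h t P J F ∧ (y ∈ F ↔ y ∈ F2) ∧ (x ∈ F ↔ x ∈ F2) := by
    by_cases hx3 : (x ∈ F3 ↔ x ∈ F2)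
    · exact ⟨F3, hF3, hy3, hx3⟩
    · refine ⟨_, hF3.swap hD.inv hD.hd hx hPx, ?_, ?_⟩
      · rw [mem_map_equiv, Equiv.symm_swap, Equiv.swap_apply_of_ne_of_ne hyx hyP]
        exact hy3
      · rw [mem_map_equiv, Equiv.symm_swap, Equiv.swap_apply_left]
        have := (hcount F3 hF3).1
        tauto
  obtain ⟨F4, hF4, hy4, hx4⟩ := hstep2
  obtain ⟨c1, c2⟩ := hcount F4 hF4
  have d1 := hF2.trb x hx
  have d2 := hF2.trb y ((hmB _).1 hyB)
  rw [hβx] at d1
  rw [hβy] at d2
  refine hno (glue4 hD hJ hJ4 hF4 hF2 ?_)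
  intro e he
  rcases hBall e he with rfl | rfl | rfl | rfl
  · exact hx4
  · tauto
  · exact hy4
  · tauto

end Arc2

end Pool.Agent.E457m
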